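import Pool.Agent.Lib.MP_36bd7d_co.Fourier

/-!
Counting near-top characters (MP_36bd7d_co): the binomial quantile bound and the moment row.
-/
set_option autoImplicit false
set_option linter.unusedSectionVars false

namespace Pool.Agent.C36

open Finset

variable {ι : Type*} [Fintype ι] [DecidableEq ι]

/-- number of ones of `x` on `C` -/
def cnt (C : Finset ι) (x : ι → ZMod 2) : ℕ := (C.filter (fun i => x i ≠ 0)).card

/-- binomial average by recursion -/
noncomputable def binAvg : ℕ → (ℕ → ℝ) → ℝ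
  | 0, φ => φ 0
  | (m + 1), φ => (binAvg m φ + binAvg m (fun k => φ (k + 1))) / 2

/-- flip one coordinate -/
def flip (j : ι) (x : ι → ZMod 2) : ι → ZMod 2 := x + Pi.single j 1

lemma avg_flip (j : ι) (f : (ι → ZMod 2) → ℝ) : avg (fun x => f (flip j x)) = avg f :=
  avg_shift' f (Pi.single j 1)

lemma flip_same (j : ι) (x : ι → ZMod 2) : flip j x j = x j + 1 := by simp [flip]

lemma flip_ne {j i : ι} (h : i ≠ j) (x : ι → ZMod 2) : flip j x i = x i := by
  simp [flip, Pi.single_eq_of_ne h]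

lemma cnt_flip_of_notMem {C : Finset ι} {j : ι} (hj : j ∉ C) (x : ι → ZMod 2) :
    cnt C (flip j x) = cnt C x := by
  unfold cnt
  congr 1
  refine Finset.filter_congr (fun i hi => ?_)
  have : i ≠ j := fun h => hj (h ▸ hi)
  rw [flip_ne this]

lemma cnt_insert {C : Finset ι} {j : ι} (hj : j ∉ C) (x : ι → ZMod 2) :
    cnt (insert j C) x = cnt C x + (if x j = 0 then 0 else 1) := by
  unfold cnt
  rw [Finset.filter_insert]
  by_cases h : x j = 0
  · simp [h]
  · rw [if_pos h, Finset.card_insert_of_notMem (by simp [hj]), if_neg h]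

theorem avg_cnt (C : Finset ι) : ∀ φ : ℕ → ℝ, avg (fun x => φ (cnt C x)) = binAvg C.card φ := by
  induction C using Finset.induction_on with
  | empty => intro φ; simp [cnt, binAvg, avg_const]
  | insert j C hj ih =>
    intro φ
    rw [Finset.card_insert_of_notMem hj]
    have h01 : ∀ a : ZMod 2, a = 0 ∨ a = 1 := by decide
    have h11 : (1 : ZMod 2) + 1 = 0 := by decide
    have h10 : (1 : ZMod 2) ≠ 0 := by decide
    have key : ∀ x, φ (cnt (insert j C) x) + φ (cnt (insert j C) (flip j x)) =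
        φ (cnt C x) + φ (cnt C x + 1) := by
      intro x
      rw [cnt_insert hj, cnt_insert hj, cnt_flip_of_notMem hj, flip_same]
      rcases h01 (x j) with h | h
      · rw [h]; simp
      · rw [h, h11]; simp; ring
    have h2 : avg (fun x => φ (cnt (insert j C) x)) =
        (avg (fun x => φ (cnt (insert j C) x)) + avg (fun x => φ (cnt (insert j C) (flip j x)))) / 2 := by
      rw [avg_flip j (fun x => φ (cnt (insert j C) x))]; ring
    rw [h2, ← avg_add, avg_congr key, avg_add, ih φ, ih (fun k => φ (k + 1))]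
    rfl

/-- the sum of signs on `C`, as `2 * cnt - |C|` -/
lemma sum_neg_sgn (C : Finset ι) (x : ι → ZMod 2) :
    ∑ j ∈ C, (- sgn (x j)) = 2 * (cnt C x : ℝ) - (C.card : ℝ) := by
  unfold cnt
  rw [Finset.card_filter]
  push_cast
  rw [Finset.mul_sum, Finset.card_eq_sum_ones]
  push_cast
  rw [← Finset.sum_sub_distrib]
  refine Finset.sum_congr rfl (fun j _ => ?_)
  by_cases h : x j = 0
  · simp [sgn, h]
  · simp [sgn, h]; norm_num

lemma binAvg_eq (m : ℕ) : ∀ φ : ℕ → ℝ,
    binAvg m φ = (∑ k ∈ Finset.range (m + 1), (m.choose k : ℝ) * φ k) / 2 ^ m := by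
  induction m with
  | zero => intro φ; simp [binAvg]
  | succ m ih =>
    intro φ
    have hstep : ∑ k ∈ Finset.range (m + 1 + 1), ((m + 1).choose k : ℝ) * φ k =
        ∑ k ∈ Finset.range (m + 1), (m.choose k : ℝ) * φ k +
          ∑ k ∈ Finset.range (m + 1), (m.choose k : ℝ) * φ (k + 1) := by
      rw [Finset.sum_range_succ' (fun k => ((m + 1).choose k : ℝ) * φ k)]
      have e1 : ∀ k, ((m + 1).choose (k + 1) : ℝ) * φ (k + 1) =
          (m.choose k : ℝ) * φ (k + 1) + (m.choose (k + 1) : ℝ) * φ (k + 1) := by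
        intro k
        rw [Nat.choose_succ_succ]; push_cast; ring
      rw [Finset.sum_congr rfl (fun k _ => e1 k), Finset.sum_add_distrib]
      have e2 : ∑ k ∈ Finset.range (m + 1), (m.choose (k + 1) : ℝ) * φ (k + 1) +
          ((m + 1).choose 0 : ℝ) * φ 0 = ∑ k ∈ Finset.range (m + 1), (m.choose k : ℝ) * φ k := by
        have := Finset.sum_range_succ' (fun k => (m.choose k : ℝ) * φ k) (m + 1)
        rw [Finset.sum_range_succ] at this
        simp only [Nat.choose_succ_self, Nat.cast_zero, zero_mul, add_zero, Nat.choose_zero_right,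
          Nat.cast_one, one_mul] at this ⊢
        rw [this]
      linarith [e2]
    simp only [binAvg]
    rw [ih, ih, hstep, pow_succ]
    field_simp

lemma binAvg_four : binAvg 14 (fun k => max (2 * (k : ℝ) - 14 - 4) 0) = 4126 / 16384 := by
  rw [binAvg_eq]
  simp only [Finset.sum_range_succ, Finset.sum_range_zero]
  norm_num [Nat.choose, max_def]

lemma binAvg_two : binAvg 14 (fun k => max (2 * (k : ℝ) - 14 - 2) 0) = 11072 / 16384 := by
  rw [binAvg_eq]
  simp only [Finset.sum_range_succ, Finset.sum_range_zero]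
  norm_num [Nat.choose, max_def]

/-- pointwise bound used in the quantile argument -/
lemma quant_point (P F t : ℝ) (hP : P = 0 ∨ P = 1) : P * F ≤ t * P + max (F - t) 0 := by
  rcases hP with h | h
  · subst h; simp
  · subst h
    have := le_max_left (F - t) 0
    linarith

/-- Quantile bound: if `C` is a set of 14 coordinates, then
`∑_{j ∈ C} -(P_j + Q_j) + (q - p) ≤ 3 (p + q) + 15198 / 16384`. -/
theorem quantile14 (P Q : (ι → ZMod 2) → ℝ) (hP : ∀ x, P x = 0 ∨ P x = 1)
    (hQ : ∀ x, Q x = 0 ∨ Q x = 1) (C : Finset ι) (hC : C.card = 14) :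
    ∑ j ∈ C, (-(hat P {j} + hat Q {j})) + (avg Q - avg P) ≤
      3 * (avg P + avg Q) + 15198 / 16384 := by
  have hF : ∀ x, ∑ j ∈ C, (- sgn (x j)) = 2 * (cnt C x : ℝ) - 14 := by
    intro x; rw [sum_neg_sgn, hC]; norm_num
  have hsum : ∀ f : (ι → ZMod 2) → ℝ, ∑ j ∈ C, (-(hat f {j})) =
      avg (fun x => f x * (2 * (cnt C x : ℝ) - 14)) := by
    intro f
    have : ∀ j, -(hat f {j}) = avg (fun x => f x * (- sgn (x j))) := by
      intro j
      unfold hat
      have h2 := avg_mul_left (-1) (fun x => f x * chi {j} x)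
      rw [show -avg (fun x => f x * chi {j} x) = -1 * avg (fun x => f x * chi {j} x) by ring, ← h2]
      exact avg_congr (fun x => by rw [chi_singleton]; ring)
    rw [Finset.sum_congr rfl (fun j _ => this j), ← avg_finset_sum]
    exact avg_congr (fun x => by rw [← Finset.mul_sum, hF])
  have h1 : ∑ j ∈ C, (-(hat P {j} + hat Q {j})) =
      avg (fun x => P x * (2 * (cnt C x : ℝ) - 14)) + avg (fun x => Q x * (2 * (cnt C x : ℝ) - 14)) := by
    rw [← hsum P, ← hsum Q, ← Finset.sum_add_distrib]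
    exact Finset.sum_congr rfl (fun j _ => by ring)
  have hPb : avg (fun x => P x * (2 * (cnt C x : ℝ) - 14)) ≤ 4 * avg P + 4126 / 16384 := by
    have e1 : avg (fun x => P x * (2 * (cnt C x : ℝ) - 14)) ≤
        avg (fun x => 4 * P x + max (2 * (cnt C x : ℝ) - 14 - 4) 0) :=
      avg_mono (fun x => quant_point _ _ _ (hP x))
    rw [avg_add, avg_mul_left, avg_cnt C (fun k => max (2 * (k : ℝ) - 14 - 4) 0), hC, binAvg_four] at e1
    exact e1
  have hQb : avg (fun x => Q x * (2 * (cnt C x : ℝ) - 14)) ≤ 2 * avg Q + 11072 / 16384 := by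
    have e1 : avg (fun x => Q x * (2 * (cnt C x : ℝ) - 14)) ≤
        avg (fun x => 2 * Q x + max (2 * (cnt C x : ℝ) - 14 - 2) 0) :=
      avg_mono (fun x => quant_point _ _ _ (hQ x))
    rw [avg_add, avg_mul_left, avg_cnt C (fun k => max (2 * (k : ℝ) - 14 - 2) 0), hC, binAvg_two] at e1
    exact e1
  rw [h1]
  linarith

/-- At most 13 coordinates are near-top. -/
theorem card_near_top_le (P Q : (ι → ZMod 2) → ℝ) (hP : ∀ x, P x = 0 ∨ P x = 1)
    (hQ : ∀ x, Q x = 0 ∨ Q x = 1) (γ : ℝ)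
    (hγ : 3 * (avg P + avg Q) + 15198 / 16384 < 14 * γ + (avg Q - avg P)) :
    (Finset.univ.filter (fun j : ι => γ ≤ -(hat P {j} + hat Q {j}))).card ≤ 13 := by
  by_contra hcon
  push Not at hcon
  obtain ⟨C, hCs, hC⟩ := Finset.exists_subset_card_eq (Nat.succ_le_of_lt hcon)
  have h := quantile14 P Q hP hQ C hC
  have h2 : (14 : ℝ) * γ ≤ ∑ j ∈ C, (-(hat P {j} + hat Q {j})) := by
    have : ∑ j ∈ C, γ ≤ ∑ j ∈ C, (-(hat P {j} + hat Q {j})) :=
      Finset.sum_le_sum (fun j hj => (Finset.mem_filter.1 (hCs hj)).2)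
    rw [Finset.sum_const, hC, nsmul_eq_mul] at this
    exact_mod_cast this
  linarith

/-- The polynomial of the row. -/
noncomputable def rowPoly (η u : ℝ) : ℝ := u ^ 2 * (u + 1 / 2) ^ 2 * (u - (1 - η))

lemma rowPoly_nonpos {η u : ℝ} (h : u ≤ 1 - η) : rowPoly η u ≤ 0 := by
  unfold rowPoly
  have : 0 ≤ u ^ 2 * (u + 1 / 2) ^ 2 := by positivity
  nlinarith

lemma rowPoly_le {η u : ℝ} (hη : 0 ≤ η) (hη1 : η ≤ 1) (h0 : 1 - η ≤ u) (h1 : u ≤ 1) :
    rowPoly η u ≤ η * (9 / 4) := by
  unfold rowPoly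
  have hu : 0 ≤ u := by linarith
  have a1 : u ^ 2 ≤ 1 := by nlinarith
  have a2 : (u + 1 / 2) ^ 2 ≤ 9 / 4 := by nlinarith
  have a3 : u - (1 - η) ≤ η := by linarith
  have a4 : 0 ≤ u - (1 - η) := by linarith
  calc u ^ 2 * (u + 1 / 2) ^ 2 * (u - (1 - η)) ≤ 1 * (9 / 4) * η := by
        apply mul_le_mul (mul_le_mul a1 a2 (by positivity) (by norm_num)) a3 a4 (by norm_num)
    _ = η * (9 / 4) := by ring

/-- The row: if `W` has all nontrivial Fourier coefficients bounded by `D` in absolute value, and at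
most `N` nonempty sets have `-Ŵ(S) ≥ (1-η) D`, then the degree five combination of cyclic moments
is bounded. -/
theorem row_le (W : (ι → ZMod 2) → ℝ) (D η : ℝ) (N : ℕ) (hD : 0 < D) (hη : 0 ≤ η) (hη1 : η ≤ 1)
    (hsp : ∀ S : Finset ι, S.Nonempty → |hat W S| ≤ D)
    (hN : (Finset.univ.filter (fun S : Finset ι => S.Nonempty ∧ (1 - η) * D ≤ - hat W S)).card ≤ N) :
    ∑ S ∈ Finset.univ.filter (fun S : Finset ι => S.Nonempty), rowPoly η (-(hat W S) / D) ≤
      N * (η * (9 / 4)) := by
  classical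
  have h1 : ∀ S ∈ Finset.univ.filter (fun S : Finset ι => S.Nonempty),
      rowPoly η (-(hat W S) / D) ≤ if (1 - η) * D ≤ - hat W S then η * (9 / 4) else 0 := by
    intro S hS
    have hSn := (Finset.mem_filter.1 hS).2
    split_ifs with h
    · apply rowPoly_le hη hη1
      · rw [le_div_iff₀ hD]; exact h
      · rw [div_le_one hD]
        exact (abs_le.1 (hsp S hSn)).1 |> fun h => by linarith
    · apply rowPoly_nonpos
      rw [div_le_iff₀ hD]
      push Not at h
      exact h.le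
  refine (Finset.sum_le_sum h1).trans ?_
  rw [← Finset.sum_filter, Finset.sum_const, nsmul_eq_mul, Finset.filter_filter]
  have : (((Finset.univ.filter (fun S : Finset ι => S.Nonempty ∧ (1 - η) * D ≤ - hat W S)).card : ℕ) : ℝ) ≤ N := by
    exact_mod_cast hN
  exact mul_le_mul_of_nonneg_right this (by positivity)

/-- The row in moment form. -/
theorem row_moment (W : (ι → ZMod 2) → ℝ) (D η : ℝ) (N : ℕ) (hD : 0 < D) (hη : 0 ≤ η) (hη1 : η ≤ 1)
    (hsp : ∀ S : Finset ι, S.Nonempty → |hat W S| ≤ D)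
    (hN : (Finset.univ.filter (fun S : Finset ι => S.Nonempty ∧ (1 - η) * D ≤ - hat W S)).card ≤ N) :
    -(mom5 W - avg W ^ 5) / D ^ 5 + η * (mom4 W - avg W ^ 4) / D ^ 4
      + (3 / 4 - η) * (mom3 W - avg W ^ 3) / D ^ 3 - (1 - η) / 4 * (mom2 W - avg W ^ 2) / D ^ 2
      ≤ N * (η * (9 / 4)) := by
  have h := row_le W D η N hD hη hη1 hsp hN
  have hsplit : ∀ k : ℕ, ∑ S ∈ Finset.univ.filter (fun S : Finset ι => S.Nonempty), hat W S ^ k =
      ∑ S : Finset ι, hat W S ^ k - avg W ^ k := by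
    intro k
    have e : Finset.univ.filter (fun S : Finset ι => S.Nonempty) = Finset.univ.erase ∅ := by
      ext S
      simp [Finset.nonempty_iff_ne_empty]
    rw [e, ← Finset.sum_erase_add _ _ (Finset.mem_univ (∅ : Finset ι)), hat_empty]
    ring
  have hpoly : ∀ S : Finset ι, rowPoly η (-(hat W S) / D) =
      -(hat W S ^ 5) / D ^ 5 + η * (hat W S ^ 4) / D ^ 4 + (3 / 4 - η) * (hat W S ^ 3) / D ^ 3
        - (1 - η) / 4 * (hat W S ^ 2) / D ^ 2 := by
    intro S
    unfold rowPoly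
    field_simp
    ring
  rw [Finset.sum_congr rfl (fun S _ => hpoly S)] at h
  simp only [Finset.sum_sub_distrib, Finset.sum_add_distrib, ← Finset.sum_div, ← Finset.mul_sum,
    Finset.sum_neg_distrib, hsplit, sum_hat_sq, sum_hat_cube, sum_hat_four, sum_hat_five] at h
  exact h

end Pool.Agent.C36
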