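import Pool.Agent.Lib.MP_36bd7d_co.NearTop

/-!
MP_36bd7d_co: the end piece `q > 49/100`.
-/
set_option autoImplicit false
set_option linter.unusedSectionVars false

namespace Pool.Agent.C36

open Finset

variable {ι : Type*} [Fintype ι] [DecidableEq ι]

/-- Two-sided domination by singletons. -/
lemma abs_hat_le_singleton {W : (ι → ZMod 2) → ℝ} (hm : Mono W) {S : Finset ι} {j : ι}
    (hj : j ∈ S) : |hat W S| ≤ - hat W {j} := by
  obtain ⟨U, hU, rfl⟩ : ∃ U : Finset ι, j ∉ U ∧ insert j U = S :=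
    ⟨S.erase j, Finset.notMem_erase _ _, Finset.insert_erase hj⟩
  have h1 := hat_op_neg hU W
  have h2 := hat_op_neg (Finset.notMem_empty j) W
  rw [insert_empty_eq] at h2
  have hB : ∀ x, 0 ≤ op (-1) j W x := by
    intro x
    have := hm _ _ (upd_le (refl_le x) j (a := 0) (b := 1) (fun h => absurd rfl h))
    unfold op
    linarith
  have h3 : hat (op (-1) j W) U ≤ hat (op (-1) j W) ∅ := by
    unfold hat
    refine avg_mono (fun x => ?_)
    rw [chi_empty]
    rcases chi_cases U x with h | h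
    · rw [h]
    · rw [h]; have := hB x; linarith
  have h4 : -hat (op (-1) j W) ∅ ≤ hat (op (-1) j W) U := by
    rw [show -hat (op (-1) j W) ∅ = (-1) * hat (op (-1) j W) ∅ by ring]
    unfold hat
    rw [← avg_mul_left]
    refine avg_mono (fun x => ?_)
    rw [chi_empty]
    rcases chi_cases U x with h | h
    · rw [h]; have := hB x; linarith
    · rw [h]; have := hB x; linarith
  rw [abs_le]
  constructor <;> linarith

lemma chi_symmDiff (S T : Finset ι) (x : ι → ZMod 2) :
    chi (symmDiff S T) x = chi S x * chi T x := by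
  have h1 : chi S x = chi (S \ T) x * chi (S ∩ T) x := by
    unfold chi
    rw [mul_comm, Finset.prod_inter_mul_prod_sdiff]
  have h2 : chi T x = chi (T \ S) x * chi (S ∩ T) x := by
    unfold chi
    rw [mul_comm, Finset.inter_comm, Finset.prod_inter_mul_prod_sdiff]
  have h3 : chi (symmDiff S T) x = chi (S \ T) x * chi (T \ S) x := by
    unfold chi
    have hd : Disjoint (S \ T) (T \ S) := disjoint_sdiff_sdiff
    rw [symmDiff_def, Finset.sup_eq_union, Finset.prod_union hd]
  have h4 := chi_mul_self (S ∩ T) x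
  rw [h1, h2, h3]
  linear_combination (-(chi (S \ T) x * chi (T \ S) x)) * h4

lemma chi_flip {S : Finset ι} {j : ι} (hj : j ∈ S) (x : ι → ZMod 2) :
    chi S (flip j x) = - chi S x := by
  unfold flip
  rw [chi_add]
  have h : chi S (Pi.single j 1) = -1 := by
    unfold chi
    rw [Finset.prod_eq_single j]
    · simp [sgn_one]
    · intro i _ hij
      rw [Pi.single_eq_of_ne hij, sgn_zero]
    · intro h; exact absurd hj h
  rw [h]; ring

lemma avg_chi {S : Finset ι} (hS : S.Nonempty) : avg (fun x => chi S x) = 0 := by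
  obtain ⟨j, hj⟩ := hS
  have h1 := avg_flip j (fun x => chi S x)
  have h2 : avg (fun x => chi S (flip j x)) = (-1) * avg (fun x => chi S x) := by
    rw [← avg_mul_left]
    exact avg_congr (fun x => by rw [chi_flip hj]; ring)
  linarith

lemma hat_translate (g : (ι → ZMod 2) → ℝ) (x : ι → ZMod 2) (S : Finset ι) :
    hat (fun y => g (x + y)) S = chi S x * hat g S := by
  unfold hat
  rw [← avg_mul_left, ← avg_shift (fun y => g (x + y) * chi S y) x]
  refine avg_congr (fun y => ?_)
  rw [← add_assoc, add_self', zero_add, chi_add]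
  ring

section setup

variable {P Q : (ι → ZMod 2) → ℝ}

lemma ep_hat_g (Q : (ι → ZMod 2) → ℝ) {S : Finset ι} (hS : S.Nonempty) :
    hat (fun x => 1 - 2 * Q x) S = -2 * hat Q S := by
  have h : hat (fun x => 1 - 2 * Q x) S = avg (fun x => chi S x) + (-2) * hat Q S := by
    unfold hat
    rw [← avg_mul_left, ← avg_add]
    exact avg_congr (fun x => by ring)
  rw [h, avg_chi hS]; ring

lemma ep_sum_w (hQ : ∀ x, Q x = 0 ∨ Q x = 1) :
    ∑ S : Finset ι, hat (fun x => 1 - 2 * Q x) S ^ 2 = 1 := by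
  have h := parseval (fun x => 1 - 2 * Q x) (fun x => 1 - 2 * Q x)
  have h2 : ∀ S : Finset ι, hat (fun x => 1 - 2 * Q x) S ^ 2 =
      hat (fun x => 1 - 2 * Q x) S * hat (fun x => 1 - 2 * Q x) S := fun S => by ring
  have e : avg (fun x => (1 - 2 * Q x) * (1 - 2 * Q x)) = avg (fun _ : ι → ZMod 2 => (1 : ℝ)) := by
    refine avg_congr (fun x => ?_)
    rcases hQ x with h | h <;> rw [h] <;> norm_num
  rw [Finset.sum_congr rfl (fun S _ => h2 S), h, e, avg_const]

lemma ep_sum_chi {x : ι → ZMod 2} (hx : ∀ y, Q y * Q (x + y) = 0) :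
    ∑ S : Finset ι, hat (fun x => 1 - 2 * Q x) S ^ 2 * chi S x = 1 - 4 * avg Q := by
  have h := parseval (fun y => 1 - 2 * Q y) (fun y => 1 - 2 * Q (x + y))
  have h2 : ∀ S : Finset ι, hat (fun x => 1 - 2 * Q x) S ^ 2 * chi S x =
      hat (fun y => 1 - 2 * Q y) S * hat (fun y => 1 - 2 * Q (x + y)) S := by
    intro S
    rw [hat_translate (fun y => 1 - 2 * Q y) x S]; ring
  rw [Finset.sum_congr rfl (fun S _ => h2 S), h]
  have h3 : avg (fun y => (1 - 2 * Q y) * (1 - 2 * Q (x + y))) =
      avg (fun _ : ι → ZMod 2 => (1 : ℝ)) + (-2) * avg (fun y => Q y) +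
        (-2) * avg (fun y => Q (x + y)) := by
    rw [← avg_mul_left, ← avg_mul_left, ← avg_add, ← avg_add]
    refine avg_congr (fun y => ?_)
    linear_combination 4 * hx y
  rw [h3, avg_const, avg_shift (fun y => Q y) x]
  ring

lemma ep_sum_P (hP : ∀ x, P x = 0 ∨ P x = 1) (hrel : ∀ x y, P x * Q y * Q (x + y) = 0) :
    ∑ S : Finset ι, hat (fun x => 1 - 2 * Q x) S ^ 2 * hat P S = avg P * (1 - 4 * avg Q) := by
  have h1 : ∀ x, P x * (∑ S : Finset ι, hat (fun x => 1 - 2 * Q x) S ^ 2 * chi S x) =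
      P x * (1 - 4 * avg Q) := by
    intro x
    rcases hP x with h | h
    · rw [h]; ring
    · rw [ep_sum_chi]
      intro y
      have := hrel x y
      rw [h] at this
      linarith
  have h2 := avg_congr h1
  rw [avg_mul_right] at h2
  rw [← h2]
  have h3 : ∀ S : Finset ι, hat (fun x => 1 - 2 * Q x) S ^ 2 * hat P S =
      avg (fun x => P x * (hat (fun x => 1 - 2 * Q x) S ^ 2 * chi S x)) := by
    intro S
    have e : hat P S = avg (fun x => P x * chi S x) := rfl
    rw [e, ← avg_mul_left]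
    exact avg_congr (fun x => by ring)
  rw [Finset.sum_congr rfl (fun S _ => h3 S), ← avg_finset_sum]
  exact avg_congr (fun x => by rw [Finset.mul_sum])

/-- `P̂(S △ T)` is large when `-P̂(S)` and `-P̂(T)` are. -/
lemma ep_symmDiff (hP : ∀ x, P x = 0 ∨ P x = 1) (S T : Finset ι) :
    - avg P - hat P S - hat P T ≤ hat P (symmDiff S T) := by
  have e : - avg P - hat P S - hat P T =
      avg (fun x => (-1) * P x + (-1) * (P x * chi S x) + (-1) * (P x * chi T x)) := by
    rw [avg_add, avg_add, avg_mul_left, avg_mul_left, avg_mul_left]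
    unfold hat
    ring
  rw [e]
  unfold hat
  refine avg_mono (fun x => ?_)
  rw [chi_symmDiff]
  rcases hP x with h | h
  · rw [h]; ring_nf; rfl
  · rw [h]
    rcases chi_cases S x with h1 | h1 <;> rcases chi_cases T x with h2 | h2 <;> rw [h1, h2] <;>
      norm_num

/-- The product of three independent characters. -/
lemma ep_triple (hP : ∀ x, P x = 0 ∨ P x = 1) (S1 S2 S3 : Finset ι) (h1 : S1.Nonempty)
    (h2 : S2.Nonempty) (h3 : S3.Nonempty) (h12 : (symmDiff S1 S2).Nonempty)
    (h13 : (symmDiff S1 S3).Nonempty) (h23 : (symmDiff S2 S3).Nonempty)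
    (h123 : (symmDiff (symmDiff S1 S2) S3).Nonempty)
    (hx : ∀ x, P x = 1 → chi S1 x = -1 ∧ chi S2 x = -1 ∧ chi S3 x = -1) : avg P ≤ 1 / 8 := by
  have e : avg (fun x => 1 / 8 + (-1 / 8) * chi S1 x + (-1 / 8) * chi S2 x + (-1 / 8) * chi S3 x
      + (1 / 8) * chi (symmDiff S1 S2) x + (1 / 8) * chi (symmDiff S1 S3) x
      + (1 / 8) * chi (symmDiff S2 S3) x + (-1 / 8) * chi (symmDiff (symmDiff S1 S2) S3) x) =
      1 / 8 := by
    simp only [avg_add, avg_mul_left, avg_const, avg_chi h1, avg_chi h2, avg_chi h3, avg_chi h12,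
      avg_chi h13, avg_chi h23, avg_chi h123]
    ring
  rw [← e]
  refine avg_mono (fun x => ?_)
  simp only [chi_symmDiff]
  rcases hP x with h | h
  · rw [h]
    rcases chi_cases S1 x with a | a <;> rcases chi_cases S2 x with b | b <;>
      rcases chi_cases S3 x with c | c <;> rw [a, b, c] <;> norm_num
  · obtain ⟨a, b, c⟩ := hx x h
    rw [h, a, b, c]; norm_num

/-- Four independent characters. -/
lemma ep_four (hP : ∀ x, P x = 0 ∨ P x = 1) (S1 S2 S3 S4 : Finset ι) (h1 : S1.Nonempty)
    (h2 : S2.Nonempty) (h3 : S3.Nonempty) (h4 : S4.Nonempty) (h12 : (symmDiff S1 S2).Nonempty)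
    (h13 : (symmDiff S1 S3).Nonempty) (h14 : (symmDiff S1 S4).Nonempty)
    (h23 : (symmDiff S2 S3).Nonempty) (h24 : (symmDiff S2 S4).Nonempty)
    (h34 : (symmDiff S3 S4).Nonempty)
    (h123 : (symmDiff (symmDiff S1 S2) S3).Nonempty)
    (h124 : (symmDiff (symmDiff S1 S2) S4).Nonempty)
    (h134 : (symmDiff (symmDiff S1 S3) S4).Nonempty)
    (h234 : (symmDiff (symmDiff S2 S3) S4).Nonempty)
    (h1234 : (symmDiff (symmDiff (symmDiff S1 S2) S3) S4).Nonempty) :
    - avg P - (hat P S1 + hat P S2 + hat P S3 + hat P S4) / 2 ≤ 1 / 16 := by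
  have e : avg (fun x => 1 / 16 + (-1 / 16) * chi S1 x + (-1 / 16) * chi S2 x
      + (-1 / 16) * chi S3 x + (-1 / 16) * chi S4 x
      + (1 / 16) * chi (symmDiff S1 S2) x + (1 / 16) * chi (symmDiff S1 S3) x
      + (1 / 16) * chi (symmDiff S1 S4) x
      + (1 / 16) * chi (symmDiff S2 S3) x + (1 / 16) * chi (symmDiff S2 S4) x
      + (1 / 16) * chi (symmDiff S3 S4) x + (-1 / 16) * chi (symmDiff (symmDiff S1 S2) S3) x
      + (-1 / 16) * chi (symmDiff (symmDiff S1 S2) S4) x
      + (-1 / 16) * chi (symmDiff (symmDiff S1 S3) S4) x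
      + (-1 / 16) * chi (symmDiff (symmDiff S2 S3) S4) x
      + (1 / 16) * chi (symmDiff (symmDiff (symmDiff S1 S2) S3) S4) x) =
      1 / 16 := by
    simp only [avg_add, avg_mul_left, avg_const, avg_chi h1, avg_chi h2, avg_chi h3, avg_chi h4,
      avg_chi h12, avg_chi h13, avg_chi h14, avg_chi h23, avg_chi h24, avg_chi h34, avg_chi h123,
      avg_chi h124, avg_chi h134, avg_chi h234, avg_chi h1234]
    ring
  have e2 : - avg P - (hat P S1 + hat P S2 + hat P S3 + hat P S4) / 2 =
      avg (fun x => (-1) * P x + (-1 / 2) * (P x * chi S1 x) + (-1 / 2) * (P x * chi S2 x)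
        + (-1 / 2) * (P x * chi S3 x) + (-1 / 2) * (P x * chi S4 x)) := by
    simp only [avg_add, avg_mul_left]
    unfold hat
    ring
  rw [← e, e2]
  refine avg_mono (fun x => ?_)
  simp only [chi_symmDiff]
  rcases hP x with h | h <;> rw [h] <;>
  rcases chi_cases S1 x with a | a <;> rcases chi_cases S2 x with b | b <;>
      rcases chi_cases S3 x with c | c <;> rcases chi_cases S4 x with d | d <;>
      rw [a, b, c, d] <;> norm_num

end setup

/-- The end piece of the window: `q > 49/100`. -/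
theorem end_piece (P Q : (ι → ZMod 2) → ℝ) (hPm : Mono P) (hQm : Mono Q)
    (hP : ∀ x, P x = 0 ∨ P x = 1) (hQ : ∀ x, Q x = 0 ∨ Q x = 1)
    (hrel : ∀ x y, P x * Q y * Q (x + y) = 0) (hp : 1 / 8 < avg P) (hq : 49 / 100 < avg Q)
    (hD : ∀ j, - hat (fun x => P x + Q x) {j} ≤ avg Q - avg P) : False := by
  classical
  set p := avg P with hpdef
  set q := avg Q with hqdef
  set w : Finset ι → ℝ := fun S => hat (fun x => 1 - 2 * Q x) S ^ 2 with hw
  have hw0 : ∀ S, 0 ≤ w S := fun S => sq_nonneg _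
  have hwsum : ∑ S : Finset ι, w S = 1 := ep_sum_w hQ
  have hwP : ∑ S : Finset ι, w S * hat P S = p * (1 - 4 * q) := ep_sum_P hP hrel
  have hP0 : ∀ x, 0 ≤ P x := fun x => by rcases hP x with h | h <;> rw [h] <;> norm_num
  have hPempty : hat P ∅ = p := hat_empty P
  -- bounds on the coefficients of `P`
  have hPabs : ∀ S, |hat P S| ≤ p := by
    intro S
    have e1 : p = hat P ∅ := hPempty.symm
    rw [e1, abs_le]
    constructor
    · rw [show -hat P ∅ = (-1) * hat P ∅ by ring]
      unfold hat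
      rw [← avg_mul_left]
      refine avg_mono (fun x => ?_)
      rw [chi_empty]
      rcases chi_cases S x with h | h <;> rw [h] <;> have := hP0 x <;> linarith
    · unfold hat
      refine avg_mono (fun x => ?_)
      rw [chi_empty]
      rcases chi_cases S x with h | h <;> rw [h] <;> have := hP0 x <;> linarith
  -- there is a point of `P`
  have hx0 : ∃ x, P x = 1 := by
    by_contra hcon
    push Not at hcon
    have : ∀ x, P x = 0 := fun x => (hP x).resolve_right (hcon x)
    have h : p = 0 := by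
      rw [hpdef, show avg P = avg (fun _ : ι → ZMod 2 => (0 : ℝ)) from avg_congr this, avg_const]
    linarith
  have hxw : ∀ x, P x = 1 → ∑ S : Finset ι, w S * chi S x = 1 - 4 * q := by
    intro x hx
    refine ep_sum_chi (fun y => ?_)
    have := hrel x y
    rw [hx] at this
    linarith
  -- `q ≤ 1/2`
  have hq2 : q ≤ 1 / 2 := by
    obtain ⟨x, hx⟩ := hx0
    have h1 := hxw x hx
    have h2 : ∑ S : Finset ι, (-1 : ℝ) * w S ≤ ∑ S : Finset ι, w S * chi S x := by
      refine Finset.sum_le_sum (fun S _ => ?_)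
      rcases chi_cases S x with h | h <;> rw [h] <;> have := hw0 S <;> linarith
    rw [← Finset.mul_sum, hwsum, h1] at h2
    linarith
  -- the excess identity
  have hexc : ∑ S : Finset ι, w S * (p + hat P S) = p * (2 - 4 * q) := by
    have : ∀ S : Finset ι, w S * (p + hat P S) = p * w S + w S * hat P S := fun S => by ring
    rw [Finset.sum_congr rfl (fun S _ => this S), Finset.sum_add_distrib, ← Finset.mul_sum, hwsum,
      hwP]
    ring
  have hterm0 : ∀ S, 0 ≤ w S * (p + hat P S) := by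
    intro S
    have := (abs_le.1 (hPabs S)).1
    exact mul_nonneg (hw0 S) (by linarith)
  have hterm : ∀ S, w S * (p + hat P S) ≤ p * (2 - 4 * q) := by
    intro S
    rw [← hexc]
    exact Finset.single_le_sum (f := fun S => w S * (p + hat P S)) (fun S _ => hterm0 S)
      (Finset.mem_univ S)
  -- good sets
  set G : Finset (Finset ι) := Finset.univ.filter (fun S => hat P S ≤ -(751 / 1000) * p) with hG
  have hGm : ∀ S ∈ G, hat P S ≤ -(751 / 1000) * p := fun S hS => (Finset.mem_filter.1 hS).2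
  have hGne : ∀ S ∈ G, S.Nonempty := by
    intro S hS
    rw [Finset.nonempty_iff_ne_empty]
    rintro rfl
    have := hGm _ hS
    rw [hPempty] at this
    linarith
  have hpair : ∀ S ∈ G, ∀ T ∈ G, symmDiff S T ∉ G := by
    intro S hS T hT hST
    have h1 := ep_symmDiff hP S T
    have h2 := hGm S hS
    have h3 := hGm T hT
    have h4 := hGm _ hST
    have : 0 < p := by linarith
    linarith
  -- bad weight
  have hbad : ∑ S ∈ Finset.univ.filter (fun S : Finset ι => ¬ hat P S ≤ -(751 / 1000) * p), w S ≤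
      (2 - 4 * q) * (1000 / 249) := by
    have h1 : ∑ S ∈ Finset.univ.filter (fun S : Finset ι => ¬ hat P S ≤ -(751 / 1000) * p),
        (249 / 1000 * p) * w S ≤ p * (2 - 4 * q) := by
      rw [← hexc]
      calc ∑ S ∈ Finset.univ.filter (fun S : Finset ι => ¬ hat P S ≤ -(751 / 1000) * p),
            (249 / 1000 * p) * w S
          ≤ ∑ S ∈ Finset.univ.filter (fun S : Finset ι => ¬ hat P S ≤ -(751 / 1000) * p),
            w S * (p + hat P S) := by
            refine Finset.sum_le_sum (fun S hS => ?_)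
            have h := (Finset.mem_filter.1 hS).2
            push Not at h
            have := mul_le_mul_of_nonneg_left (show 249 / 1000 * p ≤ p + hat P S by linarith) (hw0 S)
            linarith
        _ ≤ ∑ S : Finset ι, w S * (p + hat P S) :=
            Finset.sum_le_sum_of_subset_of_nonneg (Finset.filter_subset _ _)
              (fun S _ _ => hterm0 S)
    rw [← Finset.mul_sum] at h1
    have hp0 : 0 < p := by linarith
    have h2 : p * (249 / 1000 * ∑ S ∈ Finset.univ.filter
        (fun S : Finset ι => ¬ hat P S ≤ -(751 / 1000) * p), w S) ≤ p * (2 - 4 * q) := by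
      linarith
    have h3 := le_of_mul_le_mul_left h2 hp0
    linarith
  have hgood : 1 - (2 - 4 * q) * (1000 / 249) ≤ ∑ S ∈ G, w S := by
    have := Finset.sum_filter_add_sum_filter_not Finset.univ
      (fun S : Finset ι => hat P S ≤ -(751 / 1000) * p) w
    rw [hwsum] at this
    have hG' : ∑ S ∈ G, w S = ∑ S ∈ Finset.univ.filter
      (fun S : Finset ι => hat P S ≤ -(751 / 1000) * p), w S := rfl
    linarith
  -- weight of a good set
  have hwG : ∀ S ∈ G, w S ≤ 2704 / 10000 := by
    intro S hS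
    obtain ⟨j, hj⟩ := hGne S hS
    have h1 := abs_hat_le_singleton hPm hj
    have h2 := abs_hat_le_singleton hQm hj
    have h3 := hD j
    have h4 : hat (fun x => P x + Q x) {j} = hat P {j} + hat Q {j} := by
      unfold hat
      rw [← avg_add]
      exact avg_congr (fun x => by ring)
    rw [h4] at h3
    have h5 : -hat P S ≤ |hat P S| := neg_le_abs _
    set u := |hat Q S| with hu
    have hu0 : 0 ≤ u := abs_nonneg _
    have h6 : u ≤ q - p + hat P S := by linarith
    have h7 : w S = 4 * u ^ 2 := by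
      have e1 : w S = hat (fun x => 1 - 2 * Q x) S ^ 2 := rfl
      have e2 : u ^ 2 = hat Q S ^ 2 := by rw [hu, sq_abs]
      rw [e1, ep_hat_g Q ⟨j, hj⟩, e2]
      ring
    have h8 := hterm S
    rw [h7] at h8 ⊢
    by_contra hcon
    push Not at hcon
    have hu26 : 26 / 100 < u := by
      by_contra hc
      push Not at hc
      nlinarith
    -- `4u² (u - q + 2p) ≤ p (2 - 4q)`
    have h9 : 4 * u ^ 2 * (u - q + 2 * p) ≤ p * (2 - 4 * q) := by
      refine le_trans ?_ h8
      exact mul_le_mul_of_nonneg_left (by linarith) (by positivity)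
    have h10 : (2704 / 10000) * (26 / 100 - q + 2 * p) ≤ 4 * u ^ 2 * (u - q + 2 * p) := by
      apply mul_le_mul hcon.le (by linarith) (by linarith) (by positivity)
    have h11 : (2704 / 10000) * (26 / 100 - q + 2 * p) ≤ p * (2 - 4 * q) := h10.trans h9
    nlinarith
  -- at most four good sets
  have hind : ∀ S1 ∈ G, ∀ S2 ∈ G, ∀ S3 ∈ G, ∀ S4 ∈ G, S1 ≠ S2 → S1 ≠ S3 → S1 ≠ S4 → S2 ≠ S3 →
      S2 ≠ S4 → S3 ≠ S4 → S4 ≠ symmDiff (symmDiff S1 S2) S3 → False := by
    intro S1 m1 S2 m2 S3 m3 S4 m4 n12 n13 n14 n23 n24 n34 n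
    have ne2 : ∀ S T : Finset ι, S ≠ T → (symmDiff S T).Nonempty := by
      intro S T h
      rw [Finset.nonempty_iff_ne_empty]
      intro h0
      exact h (symmDiff_eq_bot.1 h0)
    have ne3 : ∀ S ∈ G, ∀ T ∈ G, ∀ U ∈ G, (symmDiff (symmDiff S T) U).Nonempty := by
      intro S hS T hT U hU
      refine ne2 _ _ ?_
      intro h
      exact hpair S hS T hT (h ▸ hU)
    have h := ep_four hP S1 S2 S3 S4 (hGne _ m1) (hGne _ m2) (hGne _ m3) (hGne _ m4)
      (ne2 _ _ n12) (ne2 _ _ n13) (ne2 _ _ n14) (ne2 _ _ n23) (ne2 _ _ n24) (ne2 _ _ n34)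
      (ne3 _ m1 _ m2 _ m3) (ne3 _ m1 _ m2 _ m4) (ne3 _ m1 _ m3 _ m4) (ne3 _ m2 _ m3 _ m4)
      (ne2 _ _ n.symm)
    have g1 := hGm _ m1
    have g2 := hGm _ m2
    have g3 := hGm _ m3
    have g4 := hGm _ m4
    linarith
  have hG4 : G.card ≤ 4 := by
    by_contra hcon
    push Not at hcon
    obtain ⟨G5, hG5, hG5c⟩ := Finset.exists_subset_card_eq (Nat.succ_le_of_lt hcon)
    obtain ⟨S1, hS1⟩ : G5.Nonempty := Finset.card_pos.1 (by omega)
    obtain ⟨S2, hS2⟩ : (G5.erase S1).Nonempty := Finset.card_pos.1 (by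
      rw [Finset.card_erase_of_mem hS1]; omega)
    obtain ⟨S3, hS3⟩ : ((G5.erase S1).erase S2).Nonempty := Finset.card_pos.1 (by
      rw [Finset.card_erase_of_mem hS2, Finset.card_erase_of_mem hS1]; omega)
    obtain ⟨S4, hS4⟩ : ((((G5.erase S1).erase S2).erase S3).erase
        (symmDiff (symmDiff S1 S2) S3)).Nonempty := Finset.card_pos.1 (by
      have h1 : (((G5.erase S1).erase S2).erase S3).card = 2 := by
        rw [Finset.card_erase_of_mem hS3, Finset.card_erase_of_mem hS2,
          Finset.card_erase_of_mem hS1]; omega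
      have h2 := Finset.pred_card_le_card_erase (s := ((G5.erase S1).erase S2).erase S3)
        (a := symmDiff (symmDiff S1 S2) S3)
      omega)
    have a4 := Finset.mem_erase.1 hS4
    have b4 := Finset.mem_erase.1 a4.2
    have c4 := Finset.mem_erase.1 b4.2
    have d4 := Finset.mem_erase.1 c4.2
    have a3 := Finset.mem_erase.1 hS3
    have b3 := Finset.mem_erase.1 a3.2
    have a2 := Finset.mem_erase.1 hS2
    exact hind S1 (hG5 hS1) S2 (hG5 a2.2) S3 (hG5 b3.2) S4 (hG5 d4.2) a2.1.symm b3.1.symm d4.1.symm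
      a3.1.symm c4.1.symm b4.1.symm a4.1
  have hGsum : ∑ S ∈ G, w S ≤ G.card * (2704 / 10000) := by
    have := Finset.sum_le_sum hwG
    rwa [Finset.sum_const, nsmul_eq_mul] at this
  have hG4' : G.card = 4 := by
    have h3 : ¬ G.card ≤ 3 := by
      intro h3
      have : (G.card : ℝ) ≤ 3 := by exact_mod_cast h3
      nlinarith
    omega
  -- every good set has weight more than `2ε`
  have hwbig : ∀ S ∈ G, 1 - 2 * q < w S := by
    intro S hS
    have h1 : ∑ T ∈ G.erase S, w T ≤ 3 * (2704 / 10000) := by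
      have h2 : ∑ T ∈ G.erase S, w T ≤ ∑ T ∈ G.erase S, (2704 / 10000 : ℝ) :=
        Finset.sum_le_sum (fun T hT => hwG T (Finset.mem_of_mem_erase hT))
      rw [Finset.sum_const, nsmul_eq_mul, Finset.card_erase_of_mem hS, hG4'] at h2
      norm_num at h2 ⊢
      exact h2
    have h3 := Finset.add_sum_erase G w hS
    linarith
  have hchi : ∀ S ∈ G, ∀ x, P x = 1 → chi S x = -1 := by
    intro S hS x hx
    rcases chi_cases S x with h | h
    · exfalso
      have h1 : ∑ T : Finset ι, w T * (1 + chi T x) = 2 - 4 * q := by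
        have : ∀ T : Finset ι, w T * (1 + chi T x) = w T + w T * chi T x := fun T => by ring
        rw [Finset.sum_congr rfl (fun T _ => this T), Finset.sum_add_distrib, hwsum, hxw x hx]
        ring
      have h2 : w S * (1 + chi S x) ≤ ∑ T : Finset ι, w T * (1 + chi T x) := by
        refine Finset.single_le_sum (f := fun T => w T * (1 + chi T x)) (fun T _ => ?_)
          (Finset.mem_univ S)
        refine mul_nonneg (hw0 T) ?_
        rcases chi_cases T x with h | h <;> rw [h] <;> norm_num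
      rw [h1, h] at h2
      have := hwbig S hS
      linarith
    · exact h
  obtain ⟨S1, hS1⟩ : G.Nonempty := Finset.card_pos.1 (by omega)
  obtain ⟨S2, hS2⟩ : (G.erase S1).Nonempty := Finset.card_pos.1 (by
    rw [Finset.card_erase_of_mem hS1]; omega)
  obtain ⟨S3, hS3⟩ : ((G.erase S1).erase S2).Nonempty := Finset.card_pos.1 (by
    rw [Finset.card_erase_of_mem hS2, Finset.card_erase_of_mem hS1]; omega)
  have a3 := Finset.mem_erase.1 hS3
  have b3 := Finset.mem_erase.1 a3.2
  have a2 := Finset.mem_erase.1 hS2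
  have ne2 : ∀ S T : Finset ι, S ≠ T → (symmDiff S T).Nonempty := by
    intro S T h
    rw [Finset.nonempty_iff_ne_empty]
    intro h0
    exact h (symmDiff_eq_bot.1 h0)
  have h := ep_triple hP S1 S2 S3 (hGne _ hS1) (hGne _ a2.2) (hGne _ b3.2)
    (ne2 _ _ a2.1.symm) (ne2 _ _ b3.1.symm) (ne2 _ _ a3.1.symm)
    (ne2 _ _ (fun h => hpair S1 hS1 S2 a2.2 (h ▸ b3.2)))
    (fun x hx => ⟨hchi _ hS1 x hx, hchi _ a2.2 x hx, hchi _ b3.2 x hx⟩)
  linarith

end Pool.Agent.C36
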