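import Mathlib

/-!
Fourier analysis on `ι → ZMod 2` in the elementary form used for MP_36bd7d_co.
-/
set_option autoImplicit false
set_option linter.unusedSectionVars false

namespace Pool.Agent.C36

open Finset

variable {ι : Type*} [Fintype ι] [DecidableEq ι]

/-- average over `ι → ZMod 2` -/
noncomputable def avg (f : (ι → ZMod 2) → ℝ) : ℝ :=
  (∑ x, f x) / (2 : ℝ) ^ (Fintype.card ι)

/-- sign of an element of `ZMod 2` -/
noncomputable def sgn (a : ZMod 2) : ℝ := if a = 0 then 1 else -1

lemma sgn_zero : sgn 0 = 1 := by simp [sgn]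
lemma sgn_one : sgn 1 = -1 := by simp [sgn]

lemma sgn_add (a b : ZMod 2) : sgn (a + b) = sgn a * sgn b := by
  have key : ∀ a b : ZMod 2, (a + b = 0 ↔ a = b) := by decide
  have h01 : ∀ a : ZMod 2, a = 0 ∨ a = 1 := by decide
  unfold sgn
  simp only [key]
  rcases h01 a with rfl | rfl <;> rcases h01 b with rfl | rfl <;> simp

lemma sgn_mul_self (a : ZMod 2) : sgn a * sgn a = 1 := by
  unfold sgn; split_ifs <;> norm_num

/-- the character indexed by `S` -/
noncomputable def chi (S : Finset ι) (x : ι → ZMod 2) : ℝ := ∏ i ∈ S, sgn (x i)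

lemma chi_add (S : Finset ι) (x y : ι → ZMod 2) : chi S (x + y) = chi S x * chi S y := by
  unfold chi
  rw [← Finset.prod_mul_distrib]
  exact Finset.prod_congr rfl (fun i _ => by simp [sgn_add])

lemma chi_mul_self (S : Finset ι) (x : ι → ZMod 2) : chi S x * chi S x = 1 := by
  unfold chi
  rw [← Finset.prod_mul_distrib]
  exact Finset.prod_eq_one (fun i _ => sgn_mul_self _)

lemma chi_empty (x : ι → ZMod 2) : chi (∅ : Finset ι) x = 1 := by simp [chi]

lemma chi_singleton (i : ι) (x : ι → ZMod 2) : chi {i} x = sgn (x i) := by simp [chi]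

/-- `x + x = 0` in characteristic two -/
lemma add_self' (x : ι → ZMod 2) : x + x = 0 := by
  funext i; exact CharTwo.add_self_eq_zero (x i)

lemma add_eq_zero_iff' (x y : ι → ZMod 2) : x + y = 0 ↔ x = y := by
  constructor
  · intro h
    have : x + y + y = 0 + y := by rw [h]
    rwa [add_assoc, add_self', add_zero, zero_add] at this
  · rintro rfl; exact add_self' x

lemma sum_chi (x : ι → ZMod 2) :
    ∑ S : Finset ι, chi S x = if x = 0 then (2 : ℝ) ^ (Fintype.card ι) else 0 := by
  have h1 : ∑ S : Finset ι, chi S x = ∏ i : ι, (1 + sgn (x i)) := by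
    rw [Finset.prod_one_add]
    simp [chi]
  rw [h1]
  split_ifs with h
  · subst h
    simp only [Pi.zero_apply, sgn_zero]
    norm_num
  · have : ∃ i, x i ≠ 0 := by
      by_contra hc
      push Not at hc
      exact h (funext hc)
    obtain ⟨i, hi⟩ := this
    apply Finset.prod_eq_zero (Finset.mem_univ i)
    simp [sgn, hi]

/-- Fourier coefficient -/
noncomputable def hat (f : (ι → ZMod 2) → ℝ) (S : Finset ι) : ℝ :=
  avg (fun x => f x * chi S x)

/-- convolution -/
noncomputable def conv (f g : (ι → ZMod 2) → ℝ) (x : ι → ZMod 2) : ℝ :=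
  avg (fun y => f y * g (x + y))

lemma avg_add (f g : (ι → ZMod 2) → ℝ) : avg (fun x => f x + g x) = avg f + avg g := by
  simp [avg, Finset.sum_add_distrib, add_div]

lemma avg_mul_left (c : ℝ) (f : (ι → ZMod 2) → ℝ) : avg (fun x => c * f x) = c * avg f := by
  unfold avg
  rw [← Finset.mul_sum, mul_div_assoc]

lemma avg_mul_right (c : ℝ) (f : (ι → ZMod 2) → ℝ) : avg (fun x => f x * c) = avg f * c := by
  unfold avg
  rw [← Finset.sum_mul, div_mul_eq_mul_div]

lemma avg_mono {f g : (ι → ZMod 2) → ℝ} (h : ∀ x, f x ≤ g x) : avg f ≤ avg g := by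
  unfold avg
  exact div_le_div_of_nonneg_right (Finset.sum_le_sum (fun x _ => h x)) (by positivity)

lemma avg_congr {f g : (ι → ZMod 2) → ℝ} (h : ∀ x, f x = g x) : avg f = avg g := by
  unfold avg
  rw [Finset.sum_congr rfl (fun x _ => h x)]

lemma avg_finset_sum {α : Type*} (s : Finset α) (f : α → (ι → ZMod 2) → ℝ) :
    avg (fun x => ∑ a ∈ s, f a x) = ∑ a ∈ s, avg (f a) := by
  unfold avg
  rw [Finset.sum_comm, Finset.sum_div]

lemma avg_shift (f : (ι → ZMod 2) → ℝ) (a : ι → ZMod 2) : avg (fun x => f (a + x)) = avg f := by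
  unfold avg
  congr 1
  exact Fintype.sum_equiv (Equiv.addLeft a) _ _ (fun x => rfl)

lemma avg_shift' (f : (ι → ZMod 2) → ℝ) (a : ι → ZMod 2) : avg (fun x => f (x + a)) = avg f := by
  unfold avg
  congr 1
  exact Fintype.sum_equiv (Equiv.addRight a) _ _ (fun x => rfl)

lemma avg_comm (f : (ι → ZMod 2) → (ι → ZMod 2) → ℝ) :
    avg (fun x => avg (fun y => f x y)) = avg (fun y => avg (fun x => f x y)) := by
  unfold avg
  rw [← Finset.sum_div, ← Finset.sum_div, Finset.sum_comm]

lemma card_fun : ((Fintype.card (ι → ZMod 2) : ℕ) : ℝ) = (2 : ℝ) ^ (Fintype.card ι) := by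
  simp [ZMod.card]

lemma avg_const (c : ℝ) : avg (fun _ : ι → ZMod 2 => c) = c := by
  unfold avg
  rw [Finset.sum_const, nsmul_eq_mul, Finset.card_univ, card_fun]
  have : (2 : ℝ) ^ (Fintype.card ι) ≠ 0 := by positivity
  field_simp

lemma hat_empty (f : (ι → ZMod 2) → ℝ) : hat f ∅ = avg f := by
  simp [hat, chi_empty]

theorem parseval (f g : (ι → ZMod 2) → ℝ) :
    ∑ S : Finset ι, hat f S * hat g S = avg (fun x => f x * g x) := by
  have hN : (2 : ℝ) ^ (Fintype.card ι) ≠ 0 := by positivity
  have h1 : ∀ S : Finset ι, hat f S * hat g S =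
      (∑ x, ∑ y, f x * g y * chi S (x + y)) / ((2 : ℝ) ^ (Fintype.card ι)) ^ 2 := by
    intro S
    unfold hat avg
    rw [div_mul_div_comm, Finset.sum_mul_sum, ← pow_two]
    congr 1
    refine Finset.sum_congr rfl (fun x _ => Finset.sum_congr rfl (fun y _ => ?_))
    rw [chi_add]; ring
  calc ∑ S : Finset ι, hat f S * hat g S
      = (∑ x, ∑ y, f x * g y * ∑ S : Finset ι, chi S (x + y)) /
          ((2 : ℝ) ^ (Fintype.card ι)) ^ 2 := by
        rw [Finset.sum_congr rfl (fun S _ => h1 S), ← Finset.sum_div]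
        congr 1
        rw [Finset.sum_comm]
        refine Finset.sum_congr rfl (fun x _ => ?_)
        rw [Finset.sum_comm]
        refine Finset.sum_congr rfl (fun y _ => ?_)
        rw [Finset.mul_sum]
    _ = (∑ x, f x * g x * (2 : ℝ) ^ (Fintype.card ι)) /
          ((2 : ℝ) ^ (Fintype.card ι)) ^ 2 := by
        congr 1
        refine Finset.sum_congr rfl (fun x _ => ?_)
        rw [Finset.sum_eq_single x]
        · rw [sum_chi, if_pos (add_self' x)]
        · intro y _ hy
          rw [sum_chi, if_neg, mul_zero]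
          intro h
          exact hy ((add_eq_zero_iff' x y).1 h).symm
        · intro h; exact absurd (Finset.mem_univ x) h
    _ = avg (fun x => f x * g x) := by
        unfold avg
        rw [← Finset.sum_mul]
        field_simp

theorem hat_conv (f g : (ι → ZMod 2) → ℝ) (S : Finset ι) :
    hat (conv f g) S = hat f S * hat g S := by
  have h : hat (conv f g) S = avg (fun y => avg (fun x => (f y * chi S y) * (g (x + y) * chi S (x + y)))) := by
    unfold hat conv
    rw [avg_comm]
    refine avg_congr (fun x => ?_)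
    rw [← avg_mul_right]
    refine avg_congr (fun y => ?_)
    rw [chi_add]
    have := chi_mul_self S y
    calc f y * g (x + y) * chi S x = f y * g (x + y) * chi S x * (chi S y * chi S y) := by
          rw [this, mul_one]
      _ = _ := by ring
  rw [h]
  have h2 : ∀ y, avg (fun x => (f y * chi S y) * (g (x + y) * chi S (x + y))) =
      (f y * chi S y) * hat g S := by
    intro y
    rw [avg_mul_left]
    congr 1
    exact avg_shift' (fun z => g z * chi S z) y
  rw [avg_congr h2, avg_mul_right]
  rfl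

/-- cyclic moments -/
noncomputable def mom2 (W : (ι → ZMod 2) → ℝ) : ℝ := avg (fun x => W x * W x)
noncomputable def mom3 (W : (ι → ZMod 2) → ℝ) : ℝ :=
  avg (fun x => avg (fun y => W x * W y * W (x + y)))
noncomputable def mom4 (W : (ι → ZMod 2) → ℝ) : ℝ :=
  avg (fun x => avg (fun y => avg (fun z => W x * W y * W z * W (x + y + z))))
noncomputable def mom5 (W : (ι → ZMod 2) → ℝ) : ℝ :=
  avg (fun x => avg (fun y => avg (fun z => avg (fun t => W x * W y * W z * W t * W (x + y + z + t)))))

theorem sum_hat_sq (W : (ι → ZMod 2) → ℝ) : ∑ S : Finset ι, hat W S ^ 2 = mom2 W := by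
  rw [mom2, ← parseval]
  exact Finset.sum_congr rfl (fun S _ => by ring)

theorem sum_hat_cube (W : (ι → ZMod 2) → ℝ) : ∑ S : Finset ι, hat W S ^ 3 = mom3 W := by
  have h : ∀ S : Finset ι, hat W S ^ 3 = hat W S * hat (conv W W) S := by
    intro S; rw [hat_conv]; ring
  rw [Finset.sum_congr rfl (fun S _ => h S), parseval, mom3]
  refine avg_congr (fun x => ?_)
  unfold conv
  rw [← avg_mul_left]
  exact avg_congr (fun y => by ring)

theorem sum_hat_four (W : (ι → ZMod 2) → ℝ) : ∑ S : Finset ι, hat W S ^ 4 = mom4 W := by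
  have h : ∀ S : Finset ι, hat W S ^ 4 = hat W S * hat (conv W (conv W W)) S := by
    intro S; rw [hat_conv, hat_conv]; ring
  rw [Finset.sum_congr rfl (fun S _ => h S), parseval, mom4]
  refine avg_congr (fun x => ?_)
  unfold conv
  rw [← avg_mul_left]
  refine avg_congr (fun y => ?_)
  rw [← avg_mul_left, ← avg_mul_left]
  exact avg_congr (fun z => by ring)

theorem sum_hat_five (W : (ι → ZMod 2) → ℝ) : ∑ S : Finset ι, hat W S ^ 5 = mom5 W := by
  have h : ∀ S : Finset ι, hat W S ^ 5 = hat W S * hat (conv W (conv W (conv W W))) S := by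
    intro S; rw [hat_conv, hat_conv, hat_conv]; ring
  rw [Finset.sum_congr rfl (fun S _ => h S), parseval, mom5]
  refine avg_congr (fun x => ?_)
  unfold conv
  rw [← avg_mul_left]
  refine avg_congr (fun y => ?_)
  rw [← avg_mul_left, ← avg_mul_left]
  refine avg_congr (fun z => ?_)
  rw [← avg_mul_left, ← avg_mul_left, ← avg_mul_left]
  exact avg_congr (fun t => by ring)

end Pool.Agent.C36
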