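import Pool.Agent.Lib.MP_36bd7d_co.NearTop

/-!
MP_36bd7d_co: at most 13 near-top characters (singletons and disjoint blocks together).
-/
set_option autoImplicit false
set_option linter.unusedSectionVars false

namespace Pool.Agent.C36

open Finset

variable {ι : Type*} [Fintype ι] [DecidableEq ι]

theorem avg_cnt_gen (C : Finset ι) : ∀ h : ℕ → (ι → ZMod 2) → ℝ,
    (∀ k, ∀ j ∈ C, ∀ x, h k (flip j x) = h k x) →
    avg (fun x => h (cnt C x) x) = binAvg C.card (fun k => avg (h k)) := by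
  induction C using Finset.induction_on with
  | empty => intro h _; simp [cnt, binAvg]
  | insert j C hj ih =>
    intro h hh
    rw [Finset.card_insert_of_notMem hj]
    have key : ∀ x, h (cnt (insert j C) x) x + h (cnt (insert j C) (flip j x)) (flip j x) =
        h (cnt C x) x + h (cnt C x + 1) x := by
      intro x
      rw [hh _ j (Finset.mem_insert_self _ _), cnt_insert hj, cnt_insert hj,
        cnt_flip_of_notMem hj, flip_same]
      rcases zmod2_cases (x j) with h | h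
      · rw [h]; simp
      · rw [h, zmod2_one_add]; simp; ring
    have h2 : avg (fun x => h (cnt (insert j C) x) x) =
        (avg (fun x => h (cnt (insert j C) x) x) +
          avg (fun x => h (cnt (insert j C) (flip j x)) (flip j x))) / 2 := by
      rw [avg_flip j (fun x => h (cnt (insert j C) x) x)]; ring
    have hh' : ∀ k, ∀ i ∈ C, ∀ x, h k (flip i x) = h k x :=
      fun k i hi x => hh k i (Finset.mem_insert_of_mem hi) x
    rw [h2, ← avg_add, avg_congr key, avg_add, ih h hh',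
      ih (fun k => h (k + 1)) (fun k i hi x => hh' (k + 1) i hi x)]
    rfl

lemma cnt_flip_of_disjoint {C C' : Finset ι} (h : Disjoint C C') {j : ι} (hj : j ∈ C)
    (x : ι → ZMod 2) : cnt C' (flip j x) = cnt C' x :=
  cnt_flip_of_notMem (Finset.disjoint_left.1 h hj) x

theorem avg_cnt4 (C0 C1 C2 C3 : Finset ι) (h01 : Disjoint C0 C1) (h02 : Disjoint C0 C2)
    (h03 : Disjoint C0 C3) (h12 : Disjoint C1 C2) (h13 : Disjoint C1 C3) (h23 : Disjoint C2 C3)
    (h : ℕ → ℕ → ℕ → ℕ → ℝ) :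
    avg (fun x => h (cnt C0 x) (cnt C1 x) (cnt C2 x) (cnt C3 x)) =
      binAvg C0.card (fun k0 => binAvg C1.card (fun k1 => binAvg C2.card (fun k2 =>
        binAvg C3.card (fun k3 => h k0 k1 k2 k3)))) := by
  rw [avg_cnt_gen C0 (fun k0 x => h k0 (cnt C1 x) (cnt C2 x) (cnt C3 x)) (fun k j hj x => by
    simp only [cnt_flip_of_disjoint h01 hj, cnt_flip_of_disjoint h02 hj,
      cnt_flip_of_disjoint h03 hj])]
  congr 1
  funext k0
  rw [avg_cnt_gen C1 (fun k1 x => h k0 k1 (cnt C2 x) (cnt C3 x)) (fun k j hj x => by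
    simp only [cnt_flip_of_disjoint h12 hj, cnt_flip_of_disjoint h13 hj])]
  congr 1
  funext k1
  rw [avg_cnt_gen C2 (fun k2 x => h k0 k1 k2 (cnt C3 x)) (fun k j hj x => by
    simp only [cnt_flip_of_disjoint h23 hj])]
  congr 1
  funext k2
  exact avg_cnt C3 (fun k3 => h k0 k1 k2 k3)

/-- integer binomial sum -/
def binSum (m : ℕ) (g : ℕ → ℤ) : ℤ := ∑ k ∈ Finset.range (m + 1), (m.choose k : ℤ) * g k

lemma binAvg_cast (m : ℕ) (g : ℕ → ℤ) (a : ℕ) :
    binAvg m (fun k => ((g k : ℤ) : ℝ) / 2 ^ a) = ((binSum m g : ℤ) : ℝ) / 2 ^ (m + a) := by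
  rw [binAvg_eq, binSum, pow_add]
  push_cast
  rw [Finset.sum_div, Finset.sum_div]
  refine Finset.sum_congr rfl (fun k _ => ?_)
  field_simp

/-- block value -/
def psiZ (s k : ℕ) : ℤ := if s = 0 then 0 else 2 * (k : ℤ) - s - (-1) ^ k

/-- total integer sum -/
def totZ (t : ℤ) (r s1 s2 s3 : ℕ) : ℤ :=
  binSum r (fun k0 => binSum s1 (fun k1 => binSum s2 (fun k2 => binSum s3 (fun k3 =>
    max (2 * (k0 : ℤ) - r + psiZ s1 k1 + psiZ s2 k2 + psiZ s3 k3 - t) 0))))

/-- is a block -/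
def isB (s : ℕ) : ℕ := if s = 0 then 0 else 1

/-- one configuration satisfies the bound -/
def chk (s1 s2 s3 : ℕ) : Bool :=
  (s1 == 1 || s1 == 2 || s2 == 1 || s2 == 2 || s3 == 1 || s3 == 2 ||
    Nat.blt 14 (s1 + s2 + s3 + isB s1 + isB s2 + isB s3)) ||
  decide (100000 * (totZ 4 (14 - (s1 + s2 + s3 + isB s1 + isB s2 + isB s3)) s1 s2 s3 +
      totZ 2 (14 - (s1 + s2 + s3 + isB s1 + isB s2 + isB s3)) s1 s2 s3) ≤
      93998 * 2 ^ (14 - (isB s1 + isB s2 + isB s3)))

set_option maxRecDepth 100000 in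
lemma chk_all : ∀ s1 < 14, ∀ s2 < 14, ∀ s3 < 14, chk s1 s2 s3 = true := by
  decide +kernel

lemma chi_eq_cnt (S : Finset ι) (x : ι → ZMod 2) : chi S x = (-1) ^ (cnt S x) := by
  unfold chi cnt sgn
  rw [Finset.prod_ite, Finset.prod_const_one, one_mul, Finset.prod_const]

/-- integer form of the test function -/
def PhiZ (R B1 B2 B3 : Finset ι) (x : ι → ZMod 2) : ℤ :=
  2 * (cnt R x : ℤ) - R.card + psiZ B1.card (cnt B1 x) + psiZ B2.card (cnt B2 x)
    + psiZ B3.card (cnt B3 x)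

lemma avg_tot (t : ℤ) (R B1 B2 B3 : Finset ι) (h01 : Disjoint R B1) (h02 : Disjoint R B2)
    (h03 : Disjoint R B3) (h12 : Disjoint B1 B2) (h13 : Disjoint B1 B3) (h23 : Disjoint B2 B3) :
    avg (fun x => ((max (PhiZ R B1 B2 B3 x - t) 0 : ℤ) : ℝ)) =
      ((totZ t R.card B1.card B2.card B3.card : ℤ) : ℝ) /
        2 ^ (R.card + (B1.card + (B2.card + (B3.card + 0)))) := by
  have h1 := avg_cnt4 R B1 B2 B3 h01 h02 h03 h12 h13 h23 (fun k0 k1 k2 k3 =>
    ((max (2 * (k0 : ℤ) - R.card + psiZ B1.card k1 + psiZ B2.card k2 + psiZ B3.card k3 - t) 0 : ℤ)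
      : ℝ))
  have h2 : ∀ (m : ℕ) (g : ℕ → ℤ), binAvg m (fun k => ((g k : ℤ) : ℝ)) =
      ((binSum m g : ℤ) : ℝ) / 2 ^ (m + 0) := by
    intro m g
    rw [← binAvg_cast m g 0]
    simp only [pow_zero, div_one]
  simp only [h2, binAvg_cast] at h1
  exact h1

lemma neg_hat_singleton_eq (W : (ι → ZMod 2) → ℝ) (j : ι) :
    - hat W {j} = avg (fun x => W x * (- sgn (x j))) := by
  unfold hat
  rw [show -avg (fun x => W x * chi {j} x) = -1 * avg (fun x => W x * chi {j} x) by ring,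
    ← avg_mul_left]
  exact avg_congr (fun x => by rw [chi_singleton]; ring)

lemma sum_neg_hat (W : (ι → ZMod 2) → ℝ) (C : Finset ι) :
    ∑ j ∈ C, (- hat W {j}) = avg (fun x => W x * (2 * (cnt C x : ℝ) - (C.card : ℝ))) := by
  rw [Finset.sum_congr rfl (fun j _ => neg_hat_singleton_eq W j), ← avg_finset_sum]
  exact avg_congr (fun x => by rw [← Finset.mul_sum, sum_neg_sgn])

lemma block_val (W : (ι → ZMod 2) → ℝ) (B : Finset ι) (γ : ℝ) (hB : B.card = 0 ∨ 3 ≤ B.card)
    (h1 : ∀ j ∈ B, γ ≤ - hat W {j}) (h2 : 3 ≤ B.card → γ ≤ - hat W B) :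
    ((B.card + isB B.card : ℕ) : ℝ) * γ ≤
      avg (fun x => W x * ((psiZ B.card (cnt B x) : ℤ) : ℝ)) := by
  rcases hB with hB | hB
  · have e : ∀ x, W x * ((psiZ B.card (cnt B x) : ℤ) : ℝ) = 0 := by
      intro x; simp [psiZ, hB]
    rw [avg_congr e, avg_const, hB]
    simp [isB]
  · have hne : B.card ≠ 0 := by omega
    have e : avg (fun x => W x * ((psiZ B.card (cnt B x) : ℤ) : ℝ)) =
        ∑ j ∈ B, (- hat W {j}) + (- hat W B) := by
      rw [sum_neg_hat]
      unfold hat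
      rw [show -avg (fun x => W x * chi B x) = -1 * avg (fun x => W x * chi B x) by ring,
        ← avg_mul_left, ← avg_add]
      refine avg_congr (fun x => ?_)
      rw [chi_eq_cnt]
      unfold psiZ
      rw [if_neg hne]
      push_cast
      ring
    have e2 : ∑ j ∈ B, γ ≤ ∑ j ∈ B, (- hat W {j}) := Finset.sum_le_sum h1
    rw [Finset.sum_const, nsmul_eq_mul] at e2
    have e3 := h2 hB
    have e4 : isB B.card = 1 := by simp [isB, hne]
    rw [e, e4]
    push_cast
    linarith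

lemma mul_le_pos_part {P F t : ℝ} (h0 : 0 ≤ P) (h1 : P ≤ 1) : P * F ≤ t * P + max (F - t) 0 := by
  rcases le_total (F - t) 0 with h | h
  · rw [max_eq_right h]; nlinarith
  · rw [max_eq_left h]; nlinarith

/-- The extremal inequality for 14 near-top characters. -/
theorem fourteen_bound (P Q W : (ι → ZMod 2) → ℝ) (hW : ∀ x, W x = P x + Q x)
    (hP0 : ∀ x, 0 ≤ P x) (hP1 : ∀ x, P x ≤ 1) (hQ0 : ∀ x, 0 ≤ Q x) (hQ1 : ∀ x, Q x ≤ 1) (γ : ℝ)
    (R B1 B2 B3 : Finset ι) (h01 : Disjoint R B1) (h02 : Disjoint R B2)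
    (h03 : Disjoint R B3) (h12 : Disjoint B1 B2) (h13 : Disjoint B1 B3) (h23 : Disjoint B2 B3)
    (c1 : B1.card = 0 ∨ 3 ≤ B1.card) (c2 : B2.card = 0 ∨ 3 ≤ B2.card)
    (c3 : B3.card = 0 ∨ 3 ≤ B3.card)
    (hR : ∀ j ∈ R, γ ≤ - hat W {j}) (hb1 : ∀ j ∈ B1, γ ≤ - hat W {j})
    (hb2 : ∀ j ∈ B2, γ ≤ - hat W {j}) (hb3 : ∀ j ∈ B3, γ ≤ - hat W {j})
    (hc1 : 3 ≤ B1.card → γ ≤ - hat W B1) (hc2 : 3 ≤ B2.card → γ ≤ - hat W B2)
    (hc3 : 3 ≤ B3.card → γ ≤ - hat W B3)
    (htot : R.card + (B1.card + B2.card + B3.card + isB B1.card + isB B2.card + isB B3.card) = 14) :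
    14 * γ ≤ 4 * avg P + 2 * avg Q + 93998 / 100000 := by
  have v0 : (R.card : ℝ) * γ ≤ avg (fun x => W x * (2 * (cnt R x : ℝ) - (R.card : ℝ))) := by
    rw [← sum_neg_hat]
    have := Finset.sum_le_sum hR
    rwa [Finset.sum_const, nsmul_eq_mul] at this
  have v1 := block_val W B1 γ c1 hb1 hc1
  have v2 := block_val W B2 γ c2 hb2 hc2
  have v3 := block_val W B3 γ c3 hb3 hc3
  have hsum : avg (fun x => W x * ((PhiZ R B1 B2 B3 x : ℤ) : ℝ)) =
      avg (fun x => W x * (2 * (cnt R x : ℝ) - (R.card : ℝ))) +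
      avg (fun x => W x * ((psiZ B1.card (cnt B1 x) : ℤ) : ℝ)) +
      avg (fun x => W x * ((psiZ B2.card (cnt B2 x) : ℤ) : ℝ)) +
      avg (fun x => W x * ((psiZ B3.card (cnt B3 x) : ℤ) : ℝ)) := by
    rw [← avg_add, ← avg_add, ← avg_add]
    refine avg_congr (fun x => ?_)
    unfold PhiZ
    push_cast
    ring
  have htotR : (R.card : ℝ) + ((B1.card + isB B1.card : ℕ) : ℝ) + ((B2.card + isB B2.card : ℕ) : ℝ)
      + ((B3.card + isB B3.card : ℕ) : ℝ) = 14 := by
    have : R.card + (B1.card + isB B1.card) + (B2.card + isB B2.card) + (B3.card + isB B3.card)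
        = 14 := by omega
    exact_mod_cast this
  have h14 : 14 * γ ≤ avg (fun x => W x * ((PhiZ R B1 B2 B3 x : ℤ) : ℝ)) := by
    rw [hsum, ← htotR]
    linarith
  have hsplit : avg (fun x => W x * ((PhiZ R B1 B2 B3 x : ℤ) : ℝ)) =
      avg (fun x => P x * ((PhiZ R B1 B2 B3 x : ℤ) : ℝ)) +
      avg (fun x => Q x * ((PhiZ R B1 B2 B3 x : ℤ) : ℝ)) := by
    rw [← avg_add]
    exact avg_congr (fun x => by rw [hW]; ring)
  have hcast : ∀ t : ℤ, ∀ x, ((max (PhiZ R B1 B2 B3 x - t) 0 : ℤ) : ℝ) =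
      max (((PhiZ R B1 B2 B3 x : ℤ) : ℝ) - (t : ℝ)) 0 := by
    intro t x; push_cast; rfl
  have hP : avg (fun x => P x * ((PhiZ R B1 B2 B3 x : ℤ) : ℝ)) ≤ 4 * avg P +
      ((totZ 4 R.card B1.card B2.card B3.card : ℤ) : ℝ) /
        2 ^ (R.card + (B1.card + (B2.card + (B3.card + 0)))) := by
    rw [← avg_tot 4 R B1 B2 B3 h01 h02 h03 h12 h13 h23, ← avg_mul_left, ← avg_add]
    refine avg_mono (fun x => ?_)
    rw [hcast 4 x]
    have := mul_le_pos_part (F := ((PhiZ R B1 B2 B3 x : ℤ) : ℝ)) (t := 4) (hP0 x) (hP1 x)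
    exact_mod_cast this
  have hQ : avg (fun x => Q x * ((PhiZ R B1 B2 B3 x : ℤ) : ℝ)) ≤ 2 * avg Q +
      ((totZ 2 R.card B1.card B2.card B3.card : ℤ) : ℝ) /
        2 ^ (R.card + (B1.card + (B2.card + (B3.card + 0)))) := by
    rw [← avg_tot 2 R B1 B2 B3 h01 h02 h03 h12 h13 h23, ← avg_mul_left, ← avg_add]
    refine avg_mono (fun x => ?_)
    rw [hcast 2 x]
    have := mul_le_pos_part (F := ((PhiZ R B1 B2 B3 x : ℤ) : ℝ)) (t := 2) (hQ0 x) (hQ1 x)
    exact_mod_cast this
  have hchk : 100000 * (totZ 4 R.card B1.card B2.card B3.card +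
      totZ 2 R.card B1.card B2.card B3.card) ≤
      93998 * 2 ^ (R.card + (B1.card + (B2.card + (B3.card + 0)))) := by
    have i1 : ∀ s : ℕ, s = 0 ∨ isB s = 1 := by
      intro s; unfold isB; split_ifs with h
      · exact Or.inl h
      · exact Or.inr rfl
    have j1 := i1 B1.card
    have j2 := i1 B2.card
    have j3 := i1 B3.card
    have h := chk_all B1.card (by omega) B2.card (by omega) B3.card (by omega)
    unfold chk at h
    have er : 14 - (B1.card + B2.card + B3.card + isB B1.card + isB B2.card + isB B3.card)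
        = R.card := by omega
    have ee : 14 - (isB B1.card + isB B2.card + isB B3.card) =
        R.card + (B1.card + (B2.card + (B3.card + 0))) := by omega
    rw [er, ee] at h
    simp only [Bool.or_eq_true, beq_iff_eq, decide_eq_true_eq, Nat.blt_eq] at h
    rcases h with h | h
    · exfalso
      omega
    · exact h
  have hN : (0 : ℝ) < 2 ^ (R.card + (B1.card + (B2.card + (B3.card + 0)))) := by positivity
  have hfin : ((totZ 4 R.card B1.card B2.card B3.card : ℤ) : ℝ) /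
        2 ^ (R.card + (B1.card + (B2.card + (B3.card + 0)))) +
      ((totZ 2 R.card B1.card B2.card B3.card : ℤ) : ℝ) /
        2 ^ (R.card + (B1.card + (B2.card + (B3.card + 0)))) ≤ 93998 / 100000 := by
    rw [← add_div, div_le_div_iff₀ hN (by norm_num)]
    have hc : (100000 : ℝ) * ((totZ 4 R.card B1.card B2.card B3.card : ℤ) +
        (totZ 2 R.card B1.card B2.card B3.card : ℤ)) ≤
      93998 * 2 ^ (R.card + (B1.card + (B2.card + (B3.card + 0)))) := by exact_mod_cast hchk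
    linarith
  linarith

/-- Main count: at most 13 near-top characters. -/
theorem near_top_card_le (P Q W : (ι → ZMod 2) → ℝ) (hW : ∀ x, W x = P x + Q x)
    (hPm : Mono P) (hQm : Mono Q)
    (hP0 : ∀ x, 0 ≤ P x) (hP1 : ∀ x, P x ≤ 1) (hQ0 : ∀ x, 0 ≤ Q x) (hQ1 : ∀ x, Q x ≤ 1)
    (D η : ℝ) (hD : ∀ j, - hat W {j} ≤ D) (hDη : 1 < D * (8 - 22 * η))
    (hpair : (avg P + avg Q) / 3 < (1 - η) * D)
    (hcount : 4 * avg P + 2 * avg Q + 93998 / 100000 < 14 * ((1 - η) * D)) :
    (Finset.univ.filter (fun S : Finset ι => S.Nonempty ∧ (1 - η) * D ≤ - hat W S)).card ≤ 13 := by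
  classical
  have hm : Mono W := by
    intro x y h
    rw [hW, hW]
    exact add_le_add (hPm x y h) (hQm x y h)
  have h0 : ∀ x, 0 ≤ W x := fun x => by rw [hW]; exact add_nonneg (hP0 x) (hQ0 x)
  have h2 : ∀ x, W x ≤ 2 := fun x => by rw [hW]; have := hP1 x; have := hQ1 x; linarith
  have havg : avg W = avg P + avg Q := by rw [← avg_add]; exact avg_congr hW
  set γ : ℝ := (1 - η) * D with hγ
  by_contra hcon
  push Not at hcon
  set T : Finset ι := Finset.univ.filter (fun j => γ ≤ - hat W {j}) with hT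
  set BB : Finset (Finset ι) := Finset.univ.filter (fun S => 3 ≤ S.card ∧ γ ≤ - hat W S) with hBB
  have hsub : (Finset.univ.filter (fun S : Finset ι => S.Nonempty ∧ γ ≤ - hat W S)) ⊆
      T.image (fun j => ({j} : Finset ι)) ∪ BB := by
    intro S hS
    obtain ⟨hne, hS⟩ := (Finset.mem_filter.1 hS).2
    have hpos := Finset.card_pos.2 hne
    rcases Nat.lt_or_ge S.card 3 with h3 | h3
    · have h12 : S.card = 1 ∨ S.card = 2 := by omega
      rcases h12 with h | h
      · obtain ⟨j, rfl⟩ := Finset.card_eq_one.1 h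
        exact Finset.mem_union_left _ (Finset.mem_image_of_mem _
          (Finset.mem_filter.2 ⟨Finset.mem_univ _, hS⟩))
      · have := neg_hat_pair_le hm h0 h
        rw [havg] at this
        linarith
    · exact Finset.mem_union_right _ (Finset.mem_filter.2 ⟨Finset.mem_univ _, h3, hS⟩)
  have hcard : 14 ≤ T.card + BB.card := by
    have h1 := Finset.card_le_card hsub
    have h2 := Finset.card_union_le (T.image (fun j => ({j} : Finset ι))) BB
    have h3 : (T.image (fun j => ({j} : Finset ι))).card ≤ T.card := Finset.card_image_le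
    omega
  have hTmem : ∀ j ∈ T, γ ≤ - hat W {j} := fun j hj => (Finset.mem_filter.1 hj).2
  have hBBmem : ∀ S ∈ BB, 3 ≤ S.card ∧ γ ≤ - hat W S := fun S hS => (Finset.mem_filter.1 hS).2
  have hBBT : ∀ S ∈ BB, S ⊆ T := by
    intro S hS j hj
    exact Finset.mem_filter.2 ⟨Finset.mem_univ _,
      (hBBmem S hS).2.trans (neg_hat_le_singleton hm hj)⟩
  have hBBd : ∀ S ∈ BB, ∀ S' ∈ BB, S ≠ S' → Disjoint S S' := by
    intro S hS S' hS' hne
    exact near_disjoint hm h0 h2 hD hDη (hBBmem S hS).1 (hBBmem S' hS').1 hne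
      (hBBmem S hS).2 (hBBmem S' hS').2
  -- the general contradiction from a configuration
  have hfin : ∀ B1 B2 B3 : Finset ι, B1 ⊆ T → B2 ⊆ T → B3 ⊆ T → Disjoint B1 B2 → Disjoint B1 B3 →
      Disjoint B2 B3 → (B1.card = 0 ∨ B1 ∈ BB) → (B2.card = 0 ∨ B2 ∈ BB) →
      (B3.card = 0 ∨ B3 ∈ BB) → (∀ n, T.card + (isB B1.card + isB B2.card + isB B3.card) = n →
        n = 14) → False := by
    intro B1 B2 B3 t1 t2 t3 d12 d13 d23 m1 m2 m3 hn
    have hn := hn _ rfl
    have cc : ∀ B : Finset ι, (B.card = 0 ∨ B ∈ BB) → (B.card = 0 ∨ 3 ≤ B.card) :=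
      fun B h => h.imp id (fun h => (hBBmem B h).1)
    have ccv : ∀ B : Finset ι, (B.card = 0 ∨ B ∈ BB) → 3 ≤ B.card → γ ≤ - hat W B := by
      intro B h h3
      rcases h with h | h
      · omega
      · exact (hBBmem B h).2
    have hU : B1 ∪ B2 ∪ B3 ⊆ T := Finset.union_subset (Finset.union_subset t1 t2) t3
    have hUc : (B1 ∪ B2 ∪ B3).card = B1.card + B2.card + B3.card := by
      rw [Finset.card_union_of_disjoint (Finset.disjoint_union_left.2 ⟨d13, d23⟩),
        Finset.card_union_of_disjoint d12]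
    have hRc := Finset.card_sdiff_add_card_eq_card hU
    have dR : ∀ B ⊆ B1 ∪ B2 ∪ B3, Disjoint (T \ (B1 ∪ B2 ∪ B3)) B := fun B hB =>
      Finset.disjoint_of_subset_right hB Finset.sdiff_disjoint
    have := fourteen_bound P Q W hW hP0 hP1 hQ0 hQ1 γ (T \ (B1 ∪ B2 ∪ B3)) B1 B2 B3
      (dR B1 (fun i hi => Finset.mem_union_left _ (Finset.mem_union_left _ hi)))
      (dR B2 (fun i hi => Finset.mem_union_left _ (Finset.mem_union_right _ hi)))
      (dR B3 (fun i hi => Finset.mem_union_right _ hi)) d12 d13 d23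
      (cc B1 m1) (cc B2 m2) (cc B3 m3)
      (fun j hj => hTmem j (Finset.mem_sdiff.1 hj).1) (fun j hj => hTmem j (t1 hj))
      (fun j hj => hTmem j (t2 hj)) (fun j hj => hTmem j (t3 hj))
      (ccv B1 m1) (ccv B2 m2) (ccv B3 m3) (by omega)
    linarith
  rcases Nat.lt_or_ge T.card 14 with hT14 | hT14
  · -- choose `14 - |T|` blocks
    obtain ⟨B', hB's, hB'c⟩ := Finset.exists_subset_card_eq (s := BB) (n := 14 - T.card) (by omega)
    have hdis : (B' : Set (Finset ι)).PairwiseDisjoint id := by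
      intro S hS S' hS' hne
      exact hBBd S (hB's hS) S' (hB's hS') hne
    have hun : (B'.biUnion id).card = ∑ S ∈ B', S.card := Finset.card_biUnion hdis
    have hle : (B'.biUnion id).card ≤ T.card := by
      refine Finset.card_le_card ?_
      intro i hi
      obtain ⟨S, hS, hiS⟩ := Finset.mem_biUnion.1 hi
      exact hBBT S (hB's hS) hiS
    have h3 : B'.card * 3 ≤ ∑ S ∈ B', S.card := by
      rw [← smul_eq_mul, ← Finset.sum_const]
      exact Finset.sum_le_sum (fun S hS => (hBBmem S (hB's hS)).1)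
    have hb3 : B'.card = 1 ∨ B'.card = 2 ∨ B'.card = 3 := by omega
    have hisB : ∀ B ∈ B', isB B.card = 1 := by
      intro B hB
      have := (hBBmem B (hB's hB)).1
      unfold isB
      rw [if_neg (by omega)]
    have hB0 : isB (∅ : Finset ι).card = 0 := by simp [isB]
    rcases hb3 with hb | hb | hb
    · obtain ⟨B1, hB1⟩ := Finset.card_eq_one.1 hb
      have m1 : B1 ∈ B' := by rw [hB1]; exact Finset.mem_singleton_self _
      refine hfin B1 ∅ ∅ (hBBT _ (hB's m1)) (Finset.empty_subset _) (Finset.empty_subset _)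
        (Finset.disjoint_empty_right _) (Finset.disjoint_empty_right _)
        (Finset.disjoint_empty_right _) (Or.inr (hB's m1)) (Or.inl rfl) (Or.inl rfl) ?_
      intro n hn
      rw [hisB B1 m1, hB0] at hn
      omega
    · obtain ⟨B1, B2, hne, hB1⟩ := Finset.card_eq_two.1 hb
      have m1 : B1 ∈ B' := by rw [hB1]; simp
      have m2 : B2 ∈ B' := by rw [hB1]; simp
      refine hfin B1 B2 ∅ (hBBT _ (hB's m1)) (hBBT _ (hB's m2)) (Finset.empty_subset _)
        (hBBd _ (hB's m1) _ (hB's m2) hne) (Finset.disjoint_empty_right _)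
        (Finset.disjoint_empty_right _) (Or.inr (hB's m1)) (Or.inr (hB's m2)) (Or.inl rfl) ?_
      intro n hn
      rw [hisB B1 m1, hisB B2 m2, hB0] at hn
      omega
    · obtain ⟨B1, B2, B3, h12, h13, h23, hB1⟩ := Finset.card_eq_three.1 hb
      have m1 : B1 ∈ B' := by rw [hB1]; simp
      have m2 : B2 ∈ B' := by rw [hB1]; simp
      have m3 : B3 ∈ B' := by rw [hB1]; simp
      refine hfin B1 B2 B3 (hBBT _ (hB's m1)) (hBBT _ (hB's m2)) (hBBT _ (hB's m3))
        (hBBd _ (hB's m1) _ (hB's m2) h12) (hBBd _ (hB's m1) _ (hB's m3) h13)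
        (hBBd _ (hB's m2) _ (hB's m3) h23) (Or.inr (hB's m1)) (Or.inr (hB's m2))
        (Or.inr (hB's m3)) ?_
      intro n hn
      rw [hisB B1 m1, hisB B2 m2, hisB B3 m3] at hn
      omega
  · obtain ⟨C, hCs, hC⟩ := Finset.exists_subset_card_eq hT14
    have := fourteen_bound P Q W hW hP0 hP1 hQ0 hQ1 γ C ∅ ∅ ∅
      (Finset.disjoint_empty_right _) (Finset.disjoint_empty_right _)
      (Finset.disjoint_empty_right _) (Finset.disjoint_empty_right _)
      (Finset.disjoint_empty_right _) (Finset.disjoint_empty_right _)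
      (Or.inl rfl) (Or.inl rfl) (Or.inl rfl) (fun j hj => hTmem j (hCs hj))
      (by simp) (by simp) (by simp) (by simp) (by simp) (by simp) (by simp [hC, isB])
    linarith

end Pool.Agent.C36
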