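import Pool.Agent.Lib.MP_36bd7d_co.Count

/-!
MP_36bd7d_co: the near-top characters.  For monotone `P, Q` with values in `[0,1]` and `W = P + Q`,
the characters `S` with `-hat W S` close to the maximum `D` of the singleton coefficients are
singletons or pairwise disjoint blocks of size at least three made of near-top singletons; at most
13 of them exist.
-/
set_option autoImplicit false
set_option linter.unusedSectionVars false

namespace Pool.Agent.C36

open Finset

variable {ι : Type*} [Fintype ι] [DecidableEq ι]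

/-- monotone functions -/
def Mono (f : (ι → ZMod 2) → ℝ) : Prop := ∀ x y, (∀ i, x i ≠ 0 → y i ≠ 0) → f x ≤ f y

/-- one-coordinate operator -/
noncomputable def op (u : ℝ) (j : ι) (g : (ι → ZMod 2) → ℝ) (x : ι → ZMod 2) : ℝ :=
  g (Function.update x j 1) + u * g (Function.update x j 0)

lemma zmod2_cases (a : ZMod 2) : a = 0 ∨ a = 1 := by revert a; decide

lemma zmod2_one_ne : (1 : ZMod 2) ≠ 0 := by decide

lemma zmod2_one_add : (1 : ZMod 2) + 1 = 0 := by decide

lemma flip_eq_update (j : ι) (x : ι → ZMod 2) : flip j x = Function.update x j (x j + 1) := by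
  funext i
  by_cases h : i = j
  · subst h; rw [flip_same, Function.update_self]
  · rw [flip_ne h, Function.update_of_ne h]

lemma add_flip (j : ι) (g : (ι → ZMod 2) → ℝ) (x : ι → ZMod 2) :
    g x + g (flip j x) = g (Function.update x j 1) + g (Function.update x j 0) := by
  rw [flip_eq_update]
  rcases zmod2_cases (x j) with h | h
  · have e : Function.update x j 0 = x := by rw [← h, Function.update_eq_self]
    rw [h, zero_add, e, add_comm]
  · have e : Function.update x j 1 = x := by rw [← h, Function.update_eq_self]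
    rw [h, zmod2_one_add, e]

lemma avg_split (j : ι) (g : (ι → ZMod 2) → ℝ) :
    2 * avg g = avg (fun x => g (Function.update x j 1) + g (Function.update x j 0)) := by
  have h2 : 2 * avg g = avg g + avg (fun x => g (flip j x)) := by
    rw [avg_flip j g]; ring
  rw [h2, ← avg_add]
  exact avg_congr (fun x => add_flip j g x)

lemma chi_update_of_notMem {S : Finset ι} {j : ι} (hj : j ∉ S) (x : ι → ZMod 2) (a : ZMod 2) :
    chi S (Function.update x j a) = chi S x := by
  unfold chi
  refine Finset.prod_congr rfl (fun i hi => ?_)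
  have : i ≠ j := fun h => hj (h ▸ hi)
  rw [Function.update_of_ne this]

lemma chi_insert {S : Finset ι} {j : ι} (hj : j ∉ S) (x : ι → ZMod 2) :
    chi (insert j S) x = sgn (x j) * chi S x := by
  unfold chi
  rw [Finset.prod_insert hj]

lemma hat_op_one {S : Finset ι} {j : ι} (hj : j ∉ S) (g : (ι → ZMod 2) → ℝ) :
    hat (op 1 j g) S = 2 * hat g S := by
  unfold hat
  rw [avg_split j]
  refine avg_congr (fun x => ?_)
  rw [chi_update_of_notMem hj, chi_update_of_notMem hj]
  unfold op
  ring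

lemma hat_op_neg {S : Finset ι} {j : ι} (hj : j ∉ S) (g : (ι → ZMod 2) → ℝ) :
    hat (op (-1) j g) S = -2 * hat g (insert j S) := by
  have h : 2 * hat g (insert j S) = - hat (op (-1) j g) S := by
    unfold hat
    rw [avg_split j, show -avg (fun x => op (-1) j g x * chi S x) =
      -1 * avg (fun x => op (-1) j g x * chi S x) by ring, ← avg_mul_left]
    refine avg_congr (fun x => ?_)
    rw [chi_insert hj, chi_insert hj, chi_update_of_notMem hj, chi_update_of_notMem hj,
      Function.update_self, Function.update_self, sgn_one, sgn_zero]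
    unfold op
    ring
  linarith

lemma chi_cases (S : Finset ι) (x : ι → ZMod 2) : chi S x = 1 ∨ chi S x = -1 := by
  have h := chi_mul_self S x
  have : (chi S x - 1) * (chi S x + 1) = 0 := by linear_combination h
  rcases mul_eq_zero.1 this with h | h
  · left; linarith
  · right; linarith

lemma upd_le {x y : ι → ZMod 2} (h : ∀ i, x i ≠ 0 → y i ≠ 0) (j : ι) {a b : ZMod 2}
    (hab : a ≠ 0 → b ≠ 0) : ∀ i, Function.update x j a i ≠ 0 → Function.update y j b i ≠ 0 := by
  intro i
  by_cases hi : i = j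
  · subst hi; rw [Function.update_self, Function.update_self]; exact hab
  · rw [Function.update_of_ne hi, Function.update_of_ne hi]; exact h i

lemma refl_le (x : ι → ZMod 2) : ∀ i, x i ≠ 0 → x i ≠ 0 := fun _ h => h

/-- Domination by singletons. -/
lemma neg_hat_le_singleton {W : (ι → ZMod 2) → ℝ} (hm : Mono W) {S : Finset ι} {j : ι}
    (hj : j ∈ S) : - hat W S ≤ - hat W {j} := by
  obtain ⟨U, hU, rfl⟩ : ∃ U : Finset ι, j ∉ U ∧ insert j U = S :=
    ⟨S.erase j, Finset.notMem_erase _ _, Finset.insert_erase hj⟩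
  have h1 := hat_op_neg hU W
  have h2 := hat_op_neg (Finset.notMem_empty j) W
  rw [insert_empty_eq] at h2
  have hB : ∀ x, 0 ≤ op (-1) j W x := by
    intro x
    have := hm _ _ (upd_le (refl_le x) j (a := 0) (b := 1) (fun h => absurd rfl h))
    unfold op
    linarith
  have h3 : hat (op (-1) j W) U ≤ hat (op (-1) j W) ∅ := by
    unfold hat
    refine avg_mono (fun x => ?_)
    rw [chi_empty]
    rcases chi_cases U x with h | h
    · rw [h]
    · rw [h]; have := hB x; linarith
  linarith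

/-- Pairs are never near-top. -/
lemma neg_hat_pair_le {W : (ι → ZMod 2) → ℝ} (hm : Mono W) (h0 : ∀ x, 0 ≤ W x) {S : Finset ι}
    (hS : S.card = 2) : - hat W S ≤ avg W / 3 := by
  obtain ⟨j, k, hjk, rfl⟩ := Finset.card_eq_two.1 hS
  have hk : k ∉ (∅ : Finset ι) := Finset.notMem_empty k
  have hj : j ∉ (insert k ∅ : Finset ι) := by
    rw [insert_empty_eq, Finset.mem_singleton]; exact hjk
  have e1 : hat (op (-1) k (op (-1) j W)) ∅ = 4 * hat W {j, k} := by
    rw [hat_op_neg hk, hat_op_neg hj, insert_empty_eq]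
    ring
  have e2 : hat (op 1 k (op 1 j W)) ∅ = 4 * avg W := by
    rw [hat_op_one hk, hat_op_one (Finset.notMem_empty j), hat_empty]; ring
  have e3 : 0 ≤ hat (op 1 k (op 1 j W)) ∅ + 3 * hat (op (-1) k (op (-1) j W)) ∅ := by
    rw [hat_empty, hat_empty, ← avg_mul_left, ← avg_add, ← avg_const (ι := ι) 0]
    refine avg_mono (fun x => ?_)
    have a1 := hm _ _ (upd_le (upd_le (refl_le x) k (a := 0) (b := 1) (fun h => absurd rfl h)) j
      (a := 1) (b := 1) id)
    have a2 := hm _ _ (upd_le (upd_le (refl_le x) k (a := 1) (b := 1) id) j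
      (a := 0) (b := 1) (fun h => absurd rfl h))
    have a3 := h0 (Function.update (Function.update x k 0) j 0)
    unfold op
    linarith
  rw [e1, e2] at e3
  linarith

set_option maxHeartbeats 4000000 in
/-- The pointwise inequality behind the disjointness of near-top blocks. -/
lemma key_point {W : (ι → ZMod 2) → ℝ} (hm : Mono W) (h0 : ∀ x, 0 ≤ W x) (h2 : ∀ x, W x ≤ 2)
    (j k k2 l : ι) (v w s t : ℝ) (hv : v = 1 ∨ v = -1) (hw : w = 1 ∨ w = -1)
    (hs : s = 1 ∨ s = -1) (ht : t = 1 ∨ t = -1) (x : ι → ZMod 2) :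
    0 ≤ 8 + 3 * op 1 l (op 1 k2 (op 1 k (op (-1) j W))) x
      + op 1 l (op 1 k2 (op (-1) k (op 1 j W))) x
      + op 1 l (op (-1) k2 (op 1 k (op 1 j W))) x
      + 2 * op (-1) l (op 1 k2 (op 1 k (op 1 j W))) x
      - 6 * (s * op 1 l (op (-1) k2 (op (-1) k (op (-1) j W))) x)
      - 5 * (t * op (-1) l (op v k2 (op w k (op (-1) j W))) x) := by
  have hG : ∀ a b c d a' b' c' d' : ZMod 2, (a ≠ 0 → a' ≠ 0) → (b ≠ 0 → b' ≠ 0) →
      (c ≠ 0 → c' ≠ 0) → (d ≠ 0 → d' ≠ 0) →
      W (Function.update (Function.update (Function.update (Function.update x l a) k2 b) k c) j d)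
      ≤ W (Function.update (Function.update (Function.update (Function.update x l a') k2 b')
        k c') j d') := by
    intro a b c d a' b' c' d' ha hb hc hd
    exact hm _ _ (upd_le (upd_le (upd_le (upd_le (refl_le x) l ha) k2 hb) k hc) j hd)
  have z : ∀ b : ZMod 2, (0 : ZMod 2) ≠ 0 → b ≠ 0 := fun _ h => absurd rfl h
  simp only [op]
  have lo := h0 (Function.update (Function.update (Function.update (Function.update x l 0) k2 0) k 0) j 0)
  have hi := h2 (Function.update (Function.update (Function.update (Function.update x l 1) k2 1) k 1) j 1)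
  have ea1 := hG 0 0 0 0 1 0 0 0 (z _) id id id
  have ea2 := hG 0 0 0 1 1 0 0 1 (z _) id id id
  have ea3 := hG 0 0 1 0 1 0 1 0 (z _) id id id
  have ea4 := hG 0 0 1 1 1 0 1 1 (z _) id id id
  have ea5 := hG 0 1 0 0 1 1 0 0 (z _) id id id
  have ea6 := hG 0 1 0 1 1 1 0 1 (z _) id id id
  have ea7 := hG 0 1 1 0 1 1 1 0 (z _) id id id
  have ea8 := hG 0 1 1 1 1 1 1 1 (z _) id id id
  have eb1 := hG 0 0 0 0 0 1 0 0 id (z _) id id
  have eb2 := hG 0 0 0 1 0 1 0 1 id (z _) id id
  have eb3 := hG 0 0 1 0 0 1 1 0 id (z _) id id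
  have eb4 := hG 0 0 1 1 0 1 1 1 id (z _) id id
  have eb5 := hG 1 0 0 0 1 1 0 0 id (z _) id id
  have eb6 := hG 1 0 0 1 1 1 0 1 id (z _) id id
  have eb7 := hG 1 0 1 0 1 1 1 0 id (z _) id id
  have eb8 := hG 1 0 1 1 1 1 1 1 id (z _) id id
  have ec1 := hG 0 0 0 0 0 0 1 0 id id (z _) id
  have ec2 := hG 0 0 0 1 0 0 1 1 id id (z _) id
  have ec3 := hG 0 1 0 0 0 1 1 0 id id (z _) id
  have ec4 := hG 0 1 0 1 0 1 1 1 id id (z _) id
  have ec5 := hG 1 0 0 0 1 0 1 0 id id (z _) id
  have ec6 := hG 1 0 0 1 1 0 1 1 id id (z _) id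
  have ec7 := hG 1 1 0 0 1 1 1 0 id id (z _) id
  have ec8 := hG 1 1 0 1 1 1 1 1 id id (z _) id
  have ed1 := hG 0 0 0 0 0 0 0 1 id id id (z _)
  have ed2 := hG 0 0 1 0 0 0 1 1 id id id (z _)
  have ed3 := hG 0 1 0 0 0 1 0 1 id id id (z _)
  have ed4 := hG 0 1 1 0 0 1 1 1 id id id (z _)
  have ed5 := hG 1 0 0 0 1 0 0 1 id id id (z _)
  have ed6 := hG 1 0 1 0 1 0 1 1 id id id (z _)
  have ed7 := hG 1 1 0 0 1 1 0 1 id id id (z _)
  have ed8 := hG 1 1 1 0 1 1 1 1 id id id (z _)
  clear hG h0 h2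
  generalize W (Function.update (Function.update (Function.update (Function.update x l 0) k2 0) k 0) j 0) = g0000 at *
  generalize W (Function.update (Function.update (Function.update (Function.update x l 0) k2 0) k 0) j 1) = g0001 at *
  generalize W (Function.update (Function.update (Function.update (Function.update x l 0) k2 0) k 1) j 0) = g0010 at *
  generalize W (Function.update (Function.update (Function.update (Function.update x l 0) k2 0) k 1) j 1) = g0011 at *
  generalize W (Function.update (Function.update (Function.update (Function.update x l 0) k2 1) k 0) j 0) = g0100 at *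
  generalize W (Function.update (Function.update (Function.update (Function.update x l 0) k2 1) k 0) j 1) = g0101 at *
  generalize W (Function.update (Function.update (Function.update (Function.update x l 0) k2 1) k 1) j 0) = g0110 at *
  generalize W (Function.update (Function.update (Function.update (Function.update x l 0) k2 1) k 1) j 1) = g0111 at *
  generalize W (Function.update (Function.update (Function.update (Function.update x l 1) k2 0) k 0) j 0) = g1000 at *
  generalize W (Function.update (Function.update (Function.update (Function.update x l 1) k2 0) k 0) j 1) = g1001 at *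
  generalize W (Function.update (Function.update (Function.update (Function.update x l 1) k2 0) k 1) j 0) = g1010 at *
  generalize W (Function.update (Function.update (Function.update (Function.update x l 1) k2 0) k 1) j 1) = g1011 at *
  generalize W (Function.update (Function.update (Function.update (Function.update x l 1) k2 1) k 0) j 0) = g1100 at *
  generalize W (Function.update (Function.update (Function.update (Function.update x l 1) k2 1) k 0) j 1) = g1101 at *
  generalize W (Function.update (Function.update (Function.update (Function.update x l 1) k2 1) k 1) j 0) = g1110 at *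
  generalize W (Function.update (Function.update (Function.update (Function.update x l 1) k2 1) k 1) j 1) = g1111 at *
  clear z
  rcases hv with rfl | rfl <;> rcases hw with rfl | rfl <;> rcases hs with rfl | rfl <;>
    rcases ht with rfl | rfl <;> linarith

lemma hat_op_erase_mem {S : Finset ι} {k : ι} (h : k ∈ S) (g : (ι → ZMod 2) → ℝ) :
    hat (op (-1) k g) (S.erase k) = -2 * hat g S := by
  rw [hat_op_neg (Finset.notMem_erase _ _), Finset.insert_erase h]

lemma hat_op_erase_notMem {S : Finset ι} {k : ι} (h : k ∉ S) (g : (ι → ZMod 2) → ℝ) :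
    hat (op 1 k g) (S.erase k) = 2 * hat g S := by
  rw [hat_op_one (Finset.notMem_erase _ _), Finset.erase_eq_of_notMem h]

lemma exists_signs (W : (ι → ZMod 2) → ℝ) (S : Finset ι) (j k k2 l : ι) (hj : j ∈ S) (hl : l ∈ S)
    (hjk : k ≠ j) (hjk2 : k2 ≠ j) (hkk2 : k ≠ k2) (hlj : l ≠ j) (hlk : l ≠ k) (hlk2 : l ≠ k2) :
    ∃ v w t0 : ℝ, (v = 1 ∨ v = -1) ∧ (w = 1 ∨ w = -1) ∧ (t0 = 1 ∨ t0 = -1) ∧
      hat (op (-1) l (op v k2 (op w k (op (-1) j W)))) ((((S.erase j).erase k).erase k2).erase l)
        = t0 * (16 * (- hat W S)) := by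
  have hl3 : l ∈ ((S.erase j).erase k).erase k2 :=
    Finset.mem_erase.2 ⟨hlk2, Finset.mem_erase.2 ⟨hlk, Finset.mem_erase.2 ⟨hlj, hl⟩⟩⟩
  by_cases hk : k ∈ S <;> by_cases hk2 : k2 ∈ S
  · refine ⟨-1, -1, -1, Or.inr rfl, Or.inr rfl, Or.inr rfl, ?_⟩
    rw [hat_op_erase_mem hl3, hat_op_erase_mem
      (Finset.mem_erase.2 ⟨hkk2.symm, Finset.mem_erase.2 ⟨hjk2, hk2⟩⟩),
      hat_op_erase_mem (Finset.mem_erase.2 ⟨hjk, hk⟩), hat_op_erase_mem hj]
    ring
  · refine ⟨1, -1, 1, Or.inl rfl, Or.inr rfl, Or.inl rfl, ?_⟩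
    rw [hat_op_erase_mem hl3, hat_op_erase_notMem
      (fun h => hk2 (Finset.mem_of_mem_erase (Finset.mem_of_mem_erase h))),
      hat_op_erase_mem (Finset.mem_erase.2 ⟨hjk, hk⟩), hat_op_erase_mem hj]
    ring
  · refine ⟨-1, 1, 1, Or.inr rfl, Or.inl rfl, Or.inl rfl, ?_⟩
    rw [hat_op_erase_mem hl3, hat_op_erase_mem
      (Finset.mem_erase.2 ⟨hkk2.symm, Finset.mem_erase.2 ⟨hjk2, hk2⟩⟩),
      hat_op_erase_notMem (fun h => hk (Finset.mem_of_mem_erase h)), hat_op_erase_mem hj]
    ring
  · refine ⟨1, 1, -1, Or.inl rfl, Or.inl rfl, Or.inr rfl, ?_⟩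
    rw [hat_op_erase_mem hl3, hat_op_erase_notMem
      (fun h => hk2 (Finset.mem_of_mem_erase (Finset.mem_of_mem_erase h))),
      hat_op_erase_notMem (fun h => hk (Finset.mem_of_mem_erase h)), hat_op_erase_mem hj]
    ring

lemma near_disjoint_aux {W : (ι → ZMod 2) → ℝ} (hm : Mono W) (h0 : ∀ x, 0 ≤ W x)
    (h2 : ∀ x, W x ≤ 2) {D η : ℝ} (hD : ∀ j, - hat W {j} ≤ D) (hDη : 1 < D * (8 - 22 * η))
    {S S' : Finset ι} (hS : 3 ≤ S.card) (n1 : (1 - η) * D ≤ - hat W S)
    (n2 : (1 - η) * D ≤ - hat W S') {j l : ι} (hj : j ∈ S) (hj' : j ∈ S') (hl : l ∈ S')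
    (hl' : l ∉ S) : False := by
  have hc : 1 < (S.erase j).card := by rw [Finset.card_erase_of_mem hj]; omega
  obtain ⟨k, hk, k2, hk2, hkk2⟩ := Finset.one_lt_card.1 hc
  have hkj : k ≠ j := Finset.ne_of_mem_erase hk
  have hk2j : k2 ≠ j := Finset.ne_of_mem_erase hk2
  have hkS : k ∈ S := Finset.mem_of_mem_erase hk
  have hk2S : k2 ∈ S := Finset.mem_of_mem_erase hk2
  have hlj : l ≠ j := fun h => hl' (h ▸ hj)
  have hlk : l ≠ k := fun h => hl' (h ▸ hkS)
  have hlk2 : l ≠ k2 := fun h => hl' (h ▸ hk2S)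
  obtain ⟨v, w, t0, hv, hw, ht0, he'⟩ := exists_signs W S' j k k2 l hj' hl hkj hk2j hkk2 hlj hlk hlk2
  set U : Finset ι := ((S.erase j).erase k).erase k2 with hU
  set U' : Finset ι := (((S'.erase j).erase k).erase k2).erase l with hU'
  have hlU : l ∉ U := fun h => hl' (Finset.mem_of_mem_erase (Finset.mem_of_mem_erase
    (Finset.mem_of_mem_erase h)))
  have he : hat (op 1 l (op (-1) k2 (op (-1) k (op (-1) j W)))) U = -16 * hat W S := by
    rw [hat_op_one hlU, hU, hat_op_erase_mem
      (Finset.mem_erase.2 ⟨hkk2.symm, Finset.mem_erase.2 ⟨hk2j, hk2S⟩⟩),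
      hat_op_erase_mem (Finset.mem_erase.2 ⟨hkj, hkS⟩), hat_op_erase_mem hj]
    ring
  have e0 : ∀ i : ι, i ∉ (∅ : Finset ι) := fun i => Finset.notMem_empty i
  have e1 : ∀ {i i' : ι}, i ≠ i' → i ∉ (insert i' ∅ : Finset ι) := by
    intro i i' h; rw [insert_empty_eq, Finset.mem_singleton]; exact h
  have hbj : avg (op 1 l (op 1 k2 (op 1 k (op (-1) j W)))) = 16 * (- hat W {j}) := by
    rw [← hat_empty, hat_op_one (e0 l), hat_op_one (e0 k2), hat_op_one (e0 k), hat_op_neg (e0 j),
      insert_empty_eq]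
    ring
  have hbk : avg (op 1 l (op 1 k2 (op (-1) k (op 1 j W)))) = 16 * (- hat W {k}) := by
    rw [← hat_empty, hat_op_one (e0 l), hat_op_one (e0 k2), hat_op_neg (e0 k),
      hat_op_one (e1 hkj.symm), insert_empty_eq]
    ring
  have hbk2 : avg (op 1 l (op (-1) k2 (op 1 k (op 1 j W)))) = 16 * (- hat W {k2}) := by
    rw [← hat_empty, hat_op_one (e0 l), hat_op_neg (e0 k2), hat_op_one (e1 hkk2),
      hat_op_one (e1 hk2j.symm), insert_empty_eq]
    ring
  have hbl : avg (op (-1) l (op 1 k2 (op 1 k (op 1 j W)))) = 16 * (- hat W {l}) := by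
    rw [← hat_empty, hat_op_neg (e0 l), hat_op_one (e1 hlk2.symm), hat_op_one (e1 hlk.symm),
      hat_op_one (e1 hlj.symm), insert_empty_eq]
    ring
  have hpt : ∀ x, (0 : ℝ) ≤ 8 + 3 * op 1 l (op 1 k2 (op 1 k (op (-1) j W))) x
      + op 1 l (op 1 k2 (op (-1) k (op 1 j W))) x
      + op 1 l (op (-1) k2 (op 1 k (op 1 j W))) x
      + 2 * op (-1) l (op 1 k2 (op 1 k (op 1 j W))) x
      + (-6) * (op 1 l (op (-1) k2 (op (-1) k (op (-1) j W))) x * chi U x)
      + (-5 * t0) * (op (-1) l (op v k2 (op w k (op (-1) j W))) x * chi U' x) := by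
    intro x
    have ht : t0 * chi U' x = 1 ∨ t0 * chi U' x = -1 := by
      rcases ht0 with rfl | rfl <;> rcases chi_cases U' x with h | h <;> rw [h] <;> norm_num
    have := key_point hm h0 h2 j k k2 l v w (chi U x) (t0 * chi U' x) hv hw (chi_cases U x) ht x
    linarith
  have hav := avg_mono hpt
  rw [avg_const] at hav
  simp only [avg_add, avg_mul_left, avg_const] at hav
  rw [hbj, hbk, hbk2, hbl] at hav
  have he2 : avg (fun x => op 1 l (op (-1) k2 (op (-1) k (op (-1) j W))) x * chi U x) =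
    -16 * hat W S := he
  have he2' : avg (fun x => op (-1) l (op v k2 (op w k (op (-1) j W))) x * chi U' x) =
    t0 * (16 * (- hat W S')) := he'
  rw [he2, he2'] at hav
  have htt : t0 * t0 = 1 := by rcases ht0 with rfl | rfl <;> norm_num
  have hfin : -5 * t0 * (t0 * (16 * (- hat W S'))) = -80 * (- hat W S') := by
    linear_combination (-80 * (- hat W S')) * htt
  rw [hfin] at hav
  have := hD j
  have := hD k
  have := hD k2
  have := hD l
  linarith

/-- Near-top blocks are pairwise disjoint. -/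
theorem near_disjoint {W : (ι → ZMod 2) → ℝ} (hm : Mono W) (h0 : ∀ x, 0 ≤ W x)
    (h2 : ∀ x, W x ≤ 2) {D η : ℝ} (hD : ∀ j, - hat W {j} ≤ D) (hDη : 1 < D * (8 - 22 * η))
    {S S' : Finset ι} (hS : 3 ≤ S.card) (hS' : 3 ≤ S'.card) (hne : S ≠ S')
    (n1 : (1 - η) * D ≤ - hat W S) (n2 : (1 - η) * D ≤ - hat W S') : Disjoint S S' := by
  by_contra hdis
  obtain ⟨j, hj, hj'⟩ := Finset.not_disjoint_iff.1 hdis
  by_cases hsub : S' ⊆ S
  · have hsub2 : ¬ S ⊆ S' := fun h => hne (Finset.Subset.antisymm h hsub)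
    obtain ⟨l, hl, hl'⟩ := Finset.not_subset.1 hsub2
    exact near_disjoint_aux hm h0 h2 hD hDη hS' n2 n1 hj' hj hl hl'
  · obtain ⟨l, hl, hl'⟩ := Finset.not_subset.1 hsub
    exact near_disjoint_aux hm h0 h2 hD hDη hS n1 n2 hj hj' hl hl'

end Pool.Agent.C36
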